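import Pool.Agent.MTN.Stmts
import Pool.Agent.Helper53_MTN.MaaP

/-!
# MTN, row MAZ: the Mumford-Tate groups at algebraic points
-/

set_option autoImplicit false

namespace Pool.Agent.MTN.H21

open Matrix Polynomial Pool.Agent.MT100 Pool.Agent.MT100G Pool.Agent.MT100A Pool.Agent.MT100D
  Pool.Agent.Helper78_MT Pool.Agent.MTL Pool.Agent.MTN.H53

universe u

theorem maz (hE : ElzStmt) (hT : TenStmt) (hU : TeuStmt) (hL : LieStmt) (hbas : BasDStmt)
    (hmoa : MoaDStmt) : MazStmt.{u} := by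
  intro d _ _ F w lev hw
  obtain ⟨C, h⟩ := hE d F 4 {a | 2 * w < ∑ j, lev (a j)}
  choose R1 hR1 using h
  obtain ⟨M0, hM0⟩ := exists_core (mo_isG hbas hmoa F)
  refine ⟨C, R1, fun P hP hInt => ?_⟩
  refine ⟨{x | Exz F M0 {a : Fin 4 → d | 2 * w < ∑ j, lev (a j)} P x}, ?_, ?_⟩
  · intro m a K x hx hRx
    exact hR1 m a K M0 hM0 P hP x hx hRx
  · intro x hx E V hV K _ _
    refine maa_point hbas hmoa hT hU hL F w hw lev P hP hInt M0 hM0 x ?_ E V hV.1 hV.2.1 hV.2.2 K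
    intro t ht g hg a ha
    by_contra hne
    exact hx ⟨t, ht, g, hg, a, ha, hne⟩

end Pool.Agent.MTN.H21
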