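import Pool.Agent.Helper21_MTN.All
import Pool.Agent.Helper39_MTP.Ass

/-!
# MTN: assembly of the propagation theorem
-/

set_option autoImplicit false

namespace Pool.Agent.MTN.H21

open Pool.Agent.HIK

universe u

theorem propA : MTPN.PropStmt.{u} := MTPN.H39.prop n1hA wdzA pidA dzcA finA dekA

end Pool.Agent.MTN.H21
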