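import Pool.Agent.Helper78_MTD.Gfv
import Pool.Agent.Helper43_MT100G.Bas

/-!
# Values at complex points: bounds
-/

set_option autoImplicit false
set_option linter.unusedSectionVars false

namespace Pool.Agent.MTN.H21

open BigOperators Polynomial Matrix Pool.Agent.MT100 Pool.Agent.MT100.H76 Pool.Agent.MT100G
open Pool.Agent.MT100G.H76 Pool.Agent.MT100G.H43

theorem norm_ratC (q : ℚ) : ‖(q : ℂ)‖ = |(q : ℝ)| := by
  rw [← Complex.ofReal_ratCast, Complex.norm_real, Real.norm_eq_abs]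

theorem ac_of_sm {f : PowerSeries ℚ} {x : ℂ} (h : Sm f ‖x‖) : AC f x := by
  unfold AC
  refine Summable.congr h fun k => ?_
  rw [norm_mul, norm_pow, abs_norm, norm_ratC]

theorem evC_form {d : Type} [Fintype d] (P : d → ℚ[X]) (h : d → PowerSeries ℚ) (x : ℂ)
    (hh : ∀ i, Sm (h i) ‖x‖) :
    evC (∑ i, ((P i : ℚ[X]) : PowerSeries ℚ) * h i) x = ∑ i, aeval x (P i) * evC (h i) x := by
  rw [(ac_sum _ _ (fun i _ => (ac_mul (ac_poly _ _).1 (ac_of_sm (hh i))).1)).2]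
  refine Finset.sum_congr rfl fun i _ => ?_
  rw [(ac_mul (ac_poly _ _).1 (ac_of_sm (hh i))).2, (ac_poly _ _).2, aeval_def, eval_map]

/-- smallness from a zero of high order -/
theorem evC_small {f : PowerSeries ℚ} {ρ : ℝ} {x : ℂ} (hρ : 0 < ρ) (hxρ : ‖x‖ ≤ ρ)
    (hf : Sm f ρ) (T : ℕ) (hT : ∀ i < T, PowerSeries.coeff i f = 0) :
    ‖evC f x‖ ≤ (‖x‖ / ρ) ^ T * Nm f ρ := by
  have key : ∀ k, ‖((PowerSeries.coeff k f : ℚ) : ℂ) * x ^ k‖ ≤
      (‖x‖ / ρ) ^ T * (|((PowerSeries.coeff k f : ℚ) : ℝ)| * |ρ| ^ k) := by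
    intro k
    by_cases hk : k < T
    · rw [hT k hk]
      simp
    · push Not at hk
      have h0 : 0 ≤ ‖x‖ / ρ := div_nonneg (norm_nonneg x) hρ.le
      have h1 : ‖x‖ / ρ ≤ 1 := (div_le_one hρ).2 hxρ
      have h2 : (‖x‖ / ρ) ^ k ≤ (‖x‖ / ρ) ^ T := pow_le_pow_of_le_one h0 h1 hk
      rw [norm_mul, norm_pow, norm_ratC, abs_of_pos hρ]
      have h3 : ‖x‖ ^ k = (‖x‖ / ρ) ^ k * ρ ^ k := by
        rw [← mul_pow, div_mul_cancel₀ _ hρ.ne']
      rw [h3]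
      calc |((PowerSeries.coeff k f : ℚ) : ℝ)| * ((‖x‖ / ρ) ^ k * ρ ^ k)
          = (‖x‖ / ρ) ^ k * (|((PowerSeries.coeff k f : ℚ) : ℝ)| * ρ ^ k) := by ring
        _ ≤ (‖x‖ / ρ) ^ T * (|((PowerSeries.coeff k f : ℚ) : ℝ)| * ρ ^ k) :=
            mul_le_mul_of_nonneg_right h2 (by positivity)
  have hs1 : Summable fun k => (‖x‖ / ρ) ^ T *
      (|((PowerSeries.coeff k f : ℚ) : ℝ)| * |ρ| ^ k) := Summable.mul_left _ hf
  have hs2 : Summable fun k => ‖((PowerSeries.coeff k f : ℚ) : ℂ) * x ^ k‖ :=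
    Summable.of_nonneg_of_le (fun _ => norm_nonneg _) key hs1
  unfold evC Nm
  rw [← tsum_mul_left]
  calc ‖∑' k, ((PowerSeries.coeff k f : ℚ) : ℂ) * x ^ k‖
      ≤ ∑' k, ‖((PowerSeries.coeff k f : ℚ) : ℂ) * x ^ k‖ := norm_tsum_le_tsum_norm hs2
    _ ≤ _ := Summable.tsum_le_tsum key hs2 hs1

theorem small_valueC {R : PowerSeries ℚ} (q : ℚ[X]) (T k TT : ℕ) (ρ Q Z : ℝ) (x : ℂ)
    (hρ : 0 < ρ) (hρ1 : 2 * ρ ≤ 1) (hxρ : ‖x‖ ≤ ρ)
    (hR : ∀ i < T, PowerSeries.coeff i R = 0) (hS : Sm R (2 * ρ)) (hZ : Nm R (2 * ρ) ≤ Z)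
    (hQ1 : 1 ≤ Q) (hQ : ((nrm q : ℚ) : ℝ) ≤ Q) (hk : k ≤ TT) :
    ‖evC (((X * q : ℚ[X]) : PowerSeries ℚ) ^ k * hs k R) x‖ ≤
      (‖x‖ / ρ) ^ T * (Q ^ TT * Z) := by
  have hZ0 : 0 ≤ Z := (Nm_nonneg _ _).trans hZ
  have hXq : ((X * q : ℚ[X]) : PowerSeries ℚ) = PowerSeries.X * (q : PowerSeries ℚ) := by
    rw [Polynomial.coe_mul, Polynomial.coe_X]
  have hb := hs_bound (f := R) (ρ := ρ) hS k
  have hSq : Sm ((X * q : ℚ[X]) : PowerSeries ℚ) ρ := Sm_poly _ _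
  have hNq : Nm ((X * q : ℚ[X]) : PowerSeries ℚ) ρ ≤ ρ * Q := by
    rw [hXq]
    refine (Nm_mul (Sm_X ρ) (Sm_poly q ρ)).trans ?_
    rw [Nm_X, abs_of_pos hρ]
    refine mul_le_mul_of_nonneg_left ?_ hρ.le
    refine (Nm_poly q ?_).trans hQ
    rw [abs_of_pos hρ]
    linarith
  have hord := order_hs (g := (q : PowerSeries ℚ)) T k hR
  rw [← hXq] at hord
  refine (evC_small hρ hxρ ((hSq.pow k).mul hb.1) T hord).trans ?_
  refine mul_le_mul_of_nonneg_left ?_ (by positivity)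
  calc Nm (((X * q : ℚ[X]) : PowerSeries ℚ) ^ k * hs k R) ρ
      ≤ Nm (((X * q : ℚ[X]) : PowerSeries ℚ) ^ k) ρ * Nm (hs k R) ρ := Nm_mul (hSq.pow k) hb.1
    _ ≤ (ρ * Q) ^ k * Nm (hs k R) ρ := by
        refine mul_le_mul_of_nonneg_right ?_ (Nm_nonneg _ _)
        exact (Nm_pow hSq k).trans (pow_le_pow_left₀ (Nm_nonneg _ _) hNq k)
    _ = Q ^ k * (|ρ| ^ k * Nm (hs k R) ρ) := by
        rw [abs_of_pos hρ, mul_pow]
        ring
    _ ≤ Q ^ k * Z := by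
        refine mul_le_mul_of_nonneg_left (hb.2.trans hZ) (by positivity)
    _ ≤ Q ^ TT * Z := by
        refine mul_le_mul_of_nonneg_right ?_ hZ0
        exact pow_le_pow_right₀ hQ1 hk

theorem evC_at_zero (f : PowerSeries ℚ) : evC f 0 = ((PowerSeries.constantCoeff f : ℚ) : ℂ) := by
  unfold evC
  rw [tsum_eq_single 0]
  · simp
  · intro k hk
    simp [hk]

/-- a value near zero does not vanish if the constant term does not -/
theorem const_ne {f : PowerSeries ℚ} (hG : GType f) (hf : PowerSeries.constantCoeff f ≠ 0) :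
    ∃ δ : ℝ, 0 < δ ∧ ∀ x : ℂ, ‖x‖ < δ → evC f x ≠ 0 := by
  obtain ⟨δ, hδ, h⟩ := gtype_near hG
  have h1 := (h 0 (by rwa [norm_zero])).2.2.continuousAt
  have h2 : evC f 0 ≠ 0 := by
    rw [evC_at_zero]
    exact_mod_cast hf
  obtain ⟨δ', hδ', h'⟩ := Metric.eventually_nhds_iff.1 (h1.eventually_ne h2)
  exact ⟨δ', hδ', fun x hx => h' (by rwa [dist_zero_right])⟩

/-- a nonzero polynomial does not vanish near zero, outside of zero -/
theorem poly_ne (G : ℚ[X]) (hG : G ≠ 0) : ∃ δ : ℝ, 0 < δ ∧ ∀ x : ℂ, ‖x‖ < δ → x ≠ 0 →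
    aeval x G ≠ 0 := by
  have hG' : G.map (algebraMap ℚ ℂ) ≠ 0 := by
    rwa [Ne, Polynomial.map_eq_zero]
  have hfin : ((G.map (algebraMap ℚ ℂ)).rootSet ℂ \ {0}).Finite :=
    ((G.map (algebraMap ℚ ℂ)).rootSet_finite ℂ).subset Set.sdiff_subset
  have hclosed := hfin.isClosed
  have h0 : (0 : ℂ) ∈ ((G.map (algebraMap ℚ ℂ)).rootSet ℂ \ {0})ᶜ := by
    simp
  obtain ⟨δ, hδ, h⟩ := Metric.isOpen_iff.1 hclosed.isOpen_compl 0 h0
  refine ⟨δ, hδ, fun x hx hx0 hr => ?_⟩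
  have h1 := h (show x ∈ Metric.ball 0 δ by rwa [Metric.mem_ball, dist_zero_right])
  apply h1
  refine ⟨?_, hx0⟩
  rw [Polynomial.mem_rootSet]
  refine ⟨hG', ?_⟩
  rw [Polynomial.coe_aeval_eq_eval, eval_map, ← aeval_def]
  exact hr

section nf
variable {L : Type} [Field L] [NumberField L]

theorem shift_pow {w : L} (hw : w ≠ 0) {m E : ℕ} (h : m ≤ E) : w ^ E * (w⁻¹) ^ m = w ^ (E - m) := by
  rw [inv_pow, ← div_eq_mul_inv, div_eq_iff (pow_ne_zero m hw), ← pow_add]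
  congr 1
  omega

theorem int_valueA (z : ℤ[X]) (E a0 : ℕ) (w : L) (hw : w ≠ 0) (ha : IsIntegral ℤ ((a0 : L) * w))
    (hz : z.natDegree ≤ E) : IsIntegral ℤ ((a0 : L) ^ E * w ^ E * aeval w⁻¹ (zq z)) := by
  have h1 : (zq z).natDegree < E + 1 := by
    rw [natDegree_zq]
    omega
  have h2 : (a0 : L) ^ E * w ^ E * aeval w⁻¹ (zq z) =
      ∑ m ∈ Finset.range (E + 1), ((z.coeff m : ℤ) : L) * ((a0 : L) ^ m * ((a0 : L) * w) ^ (E - m)) := by
    rw [aeval_eq_sum_range' h1, Finset.mul_sum]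
    refine Finset.sum_congr rfl fun m hm => ?_
    rw [Finset.mem_range] at hm
    have h4 : (zq z).coeff m = (z.coeff m : ℚ) := by
      unfold zq
      rw [Polynomial.coeff_map]
      rfl
    rw [h4, Algebra.smul_def, map_intCast, mul_pow, ← shift_pow hw (show m ≤ E by omega)]
    have h5 : (a0 : L) ^ E = (a0 : L) ^ m * (a0 : L) ^ (E - m) := by
      rw [← pow_add]
      congr 1
      omega
    rw [h5]
    ring
  rw [h2]
  refine IsIntegral.sum _ fun m _ => ?_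
  refine IsIntegral.mul ?_ (IsIntegral.mul ?_ (ha.pow _))
  · exact isIntegral_algebraMap (R := ℤ) (A := L) (x := z.coeff m)
  · have : IsIntegral ℤ (a0 : L) := by
      have := isIntegral_algebraMap (R := ℤ) (A := L) (x := (a0 : ℤ))
      simpa using this
    exact this.pow _

theorem conj_bound (τ : L →+* ℂ) (p : ℚ[X]) (E a0 : ℕ) (w : L) (hw : w ≠ 0) (T : ℝ) (hT : 1 ≤ T)
    (ha : (a0 : ℝ) ≤ T) (hτ : ‖τ w‖ ≤ T) (hp : p.natDegree ≤ E) :
    ‖τ ((a0 : L) ^ E * w ^ E * aeval w⁻¹ p)‖ ≤ T ^ (2 * E) * ((nrm p : ℚ) : ℝ) := by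
  have h2 : (a0 : L) ^ E * w ^ E * aeval w⁻¹ p =
      (a0 : L) ^ E * ∑ m ∈ p.support, algebraMap ℚ L (p.coeff m) * w ^ (E - m) := by
    rw [mul_assoc, aeval_eq_sum_range, ← Finset.sum_subset (s₁ := p.support)]
    · congr 1
      rw [Finset.mul_sum]
      refine Finset.sum_congr rfl fun m hm => ?_
      have h3 := le_natDegree_of_mem_supp m hm
      rw [Algebra.smul_def, ← shift_pow hw (show m ≤ E by omega)]
      ring
    · intro m hm
      have h3 := le_natDegree_of_mem_supp m hm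
      rw [Finset.mem_range]
      omega
    · intro m _ hm
      rw [notMem_support_iff.1 hm, zero_smul]
  rw [h2, map_mul, map_pow, map_natCast, map_sum, norm_mul, norm_pow, Complex.norm_natCast]
  have h3 : ‖∑ m ∈ p.support, τ (algebraMap ℚ L (p.coeff m) * w ^ (E - m))‖ ≤
      T ^ E * ((nrm p : ℚ) : ℝ) := by
    refine (norm_sum_le _ _).trans ?_
    unfold nrm
    push_cast
    rw [Finset.mul_sum]
    refine Finset.sum_le_sum fun m _ => ?_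
    rw [map_mul, map_pow, norm_mul, norm_pow]
    have h4 : ‖τ (algebraMap ℚ L (p.coeff m))‖ = |((p.coeff m : ℚ) : ℝ)| := by
      rw [← norm_ratC]
      congr 1
      rw [eq_ratCast (algebraMap ℚ L), map_ratCast]
    rw [h4, mul_comm]
    refine mul_le_mul_of_nonneg_right ?_ (abs_nonneg _)
    exact (pow_le_pow_left₀ (norm_nonneg _) hτ _).trans (pow_le_pow_right₀ hT (Nat.sub_le E m))
  have h5 : ((a0 : ℝ)) ^ E ≤ T ^ E := pow_le_pow_left₀ (Nat.cast_nonneg _) ha E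
  calc (a0 : ℝ) ^ E * ‖∑ m ∈ p.support, τ (algebraMap ℚ L (p.coeff m) * w ^ (E - m))‖
      ≤ T ^ E * (T ^ E * ((nrm p : ℚ) : ℝ)) :=
        mul_le_mul h5 h3 (norm_nonneg _) (by positivity)
    _ = T ^ (2 * E) * ((nrm p : ℚ) : ℝ) := by
        rw [two_mul, pow_add, mul_assoc]

end nf

end Pool.Agent.MTN.H21
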