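import Mathlib

/-!
# A determinant over a number field

`det_nf`: integral rows which are jointly injective on a subspace of dimension `s` and take small values at
a complex vector of this subspace cannot be too small.
-/

set_option autoImplicit false

namespace Pool.Agent.MTN.H21

open Matrix

/-- a nonzero algebraic integer of a number field has a conjugate product of absolute value `≥ 1` -/
theorem prod_embeddings_ge {L : Type} [Field L] [NumberField L] {x : L} (hx : IsIntegral ℤ x)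
    (h0 : x ≠ 0) : 1 ≤ ∏ τ : L →+* ℂ, ‖τ x‖ := by
  have h1 : (algebraMap ℚ ℂ) (Algebra.norm ℚ x) = ∏ τ : L →ₐ[ℚ] ℂ, τ x :=
    Algebra.norm_eq_prod_embeddings ℚ ℂ x
  have h2 : IsIntegral ℤ (Algebra.norm ℚ x) := Algebra.isIntegral_norm ℚ hx
  obtain ⟨z, hz⟩ := (IsIntegrallyClosed.isIntegral_iff (R := ℤ) (K := ℚ)).1 h2
  have h3 : Algebra.norm ℚ x ≠ 0 := Algebra.norm_ne_zero_iff.2 h0
  have hz0 : z ≠ 0 := by
    rintro rfl
    apply h3
    rw [← hz]
    simp
  have h4 : ∏ τ : L →+* ℂ, ‖τ x‖ = ‖(algebraMap ℚ ℂ) (Algebra.norm ℚ x)‖ := by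
    rw [h1, norm_prod]
    refine (Fintype.prod_equiv (RingHom.equivRatAlgHom (R := L) (S := ℂ)) _ _ fun τ => ?_)
    rfl
  rw [h4, ← hz]
  have h5 : (1 : ℝ) ≤ |(z : ℝ)| := by
    have := Int.one_le_abs hz0
    exact_mod_cast this
  simpa using h5

/-- bound of a complex determinant -/
theorem norm_det_le {s : ℕ} (A : Matrix (Fin s) (Fin s) ℂ) {x : ℝ} (h : ∀ i j, ‖A i j‖ ≤ x) :
    ‖A.det‖ ≤ (s.factorial : ℝ) * x ^ s := by
  have h1 := Matrix.det_le (A := A) (abv := (NormedField.toAbsoluteValue ℂ)) (x := x) h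
  rw [Fintype.card_fin, nsmul_eq_mul] at h1
  exact h1

/-- bound of an adjugate -/
theorem norm_adjugate_le {s : ℕ} (A : Matrix (Fin s) (Fin s) ℂ) {x : ℝ} (hx : 1 ≤ x)
    (h : ∀ i j, ‖A i j‖ ≤ x) (i j : Fin s) : ‖A.adjugate i j‖ ≤ (s.factorial : ℝ) * x ^ s := by
  rw [Matrix.adjugate_apply]
  refine norm_det_le _ fun a b => ?_
  rw [Matrix.updateRow_apply]
  split_ifs with h1
  · rw [Pi.single_apply]
    split_ifs
    · rw [norm_one]; exact hx
    · rw [norm_zero]; linarith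
  · exact h a b

/-- the entries of a product -/
theorem norm_sum_mul_le {d : Type} [Fintype d] (a b : d → ℂ) {x y : ℝ} (hx : 0 ≤ x)
    (ha : ∀ i, ‖a i‖ ≤ x) (hb : ∀ i, ‖b i‖ ≤ y) :
    ‖∑ i, a i * b i‖ ≤ (Fintype.card d : ℝ) * (x * y) := by
  refine (norm_sum_le _ _).trans ((Finset.sum_le_card_nsmul _ _ (x * y) fun i _ => ?_).trans ?_)
  · rw [norm_mul]
    exact mul_le_mul (ha i) (hb i) (norm_nonneg _) hx
  · rw [Finset.card_univ, nsmul_eq_mul]

/-- choice of independent rows -/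
theorem exists_rows {L : Type} [Field L] {κ : Type} {s : ℕ} (M : κ → Fin s → L)
    (h : ∀ c : Fin s → L, (∀ k, ∑ j, M k j * c j = 0) → c = 0) :
    ∃ f : Fin s → κ, (Matrix.of fun a j => M (f a) j).det ≠ 0 := by
  classical
  have hspan : Submodule.span L (Set.range M) = ⊤ := by
    by_contra hne
    obtain ⟨φ, hφ, hφ0⟩ := Submodule.exists_dual_map_eq_bot_of_lt_top (lt_top_iff_ne_top.2 hne)
      inferInstance
    apply hφ
    have hc := h (fun j => φ (Pi.single j 1)) (fun k => by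
      have h1 : φ (M k) = 0 := by
        have h2 : φ (M k) ∈ (Submodule.span L (Set.range M)).map φ :=
          Submodule.mem_map_of_mem (Submodule.subset_span ⟨k, rfl⟩)
        rw [hφ0] at h2
        exact (Submodule.mem_bot L).1 h2
      have h3 : M k = ∑ j, M k j • (Pi.single j (1 : L) : Fin s → L) := by
        funext i
        simp [Finset.sum_apply, Pi.single_apply]
      rw [h3, map_sum] at h1
      simpa using h1)
    refine LinearMap.ext fun x => ?_
    have h3 : x = ∑ j, x j • (Pi.single j (1 : L) : Fin s → L) := by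
      funext i
      simp [Finset.sum_apply, Pi.single_apply]
    rw [h3, map_sum]
    simp only [map_smul, smul_eq_mul, LinearMap.zero_apply]
    refine Finset.sum_eq_zero fun j _ => ?_
    have := congrFun hc j
    simp only [Pi.zero_apply] at this
    rw [this, mul_zero]
  obtain ⟨f, hf, -, hli⟩ := Submodule.exists_fun_fin_finrank_span_eq L (Set.range M)
  have hfr : Module.finrank L (Submodule.span L (Set.range M)) = s := by
    rw [hspan, finrank_top, Module.finrank_fin_fun]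
  choose g hg using hf
  refine ⟨fun a => g (Fin.cast hfr.symm a), ?_⟩
  have h4 : LinearIndependent L (fun a : Fin s => M (g (Fin.cast hfr.symm a))) := by
    have h5 : (fun a : Fin s => M (g (Fin.cast hfr.symm a))) = fun a => f (Fin.cast hfr.symm a) := by
      funext a
      exact hg _
    rw [h5]
    exact hli.comp _ (Fin.cast_injective _)
  have h6 : IsUnit (Matrix.of fun (a : Fin s) (j : Fin s) => M (g (Fin.cast hfr.symm a)) j) :=
    Matrix.linearIndependent_rows_iff_isUnit.1 h4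
  exact ((Matrix.isUnit_iff_isUnit_det _).1 h6).ne_zero

/-- the determinant inequality -/
theorem det_nf {L : Type} [Field L] [NumberField L] (σ : L →+* ℂ) {d κ : Type} [Fintype d] {s : ℕ}
    (v : Fin s → d → L) (dn : ℕ) (hdn : 0 < dn) (hv : ∀ j i, IsIntegral ℤ ((dn : L) * v j i))
    (V : ℝ) (hV1 : 1 ≤ V) (hV : ∀ (τ : L →+* ℂ) (j : Fin s) (i : d), ‖τ (v j i)‖ ≤ V)
    (ω : Fin s → ℂ) (j0 : Fin s) (hω : ω j0 ≠ 0) (P : κ → d → L)
    (hP : ∀ k i, IsIntegral ℤ (P k i)) (B : ℝ) (hB1 : 1 ≤ B)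
    (hB : ∀ (τ : L →+* ℂ) (k : κ) (i : d), ‖τ (P k i)‖ ≤ B) (δ : ℝ)
    (hδ : ∀ k, ‖∑ i, σ (P k i) * ∑ j, σ (v j i) * ω j‖ ≤ δ)
    (hinj : ∀ c : Fin s → L, (∀ k, ∑ j, (∑ i, P k i * v j i) * c j = 0) → c = 0) :
    1 ≤ ((dn : ℝ) ^ s * ((s.factorial : ℝ) * (((Fintype.card d : ℝ) + 1) * (B * V)) ^ s)) ^
      (Module.finrank ℚ L) * ((s : ℝ) * δ / ‖ω j0‖) := by
  classical
  obtain ⟨f, hf⟩ := exists_rows (fun k j => ∑ i, P k i * v j i) hinj
  set A : Matrix (Fin s) (Fin s) L := Matrix.of fun a j => ∑ i, P (f a) i * v j i with hA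
  set x : ℝ := ((Fintype.card d : ℝ) + 1) * (B * V) with hx
  have hBV : 1 ≤ B * V := one_le_mul_of_one_le_of_one_le hB1 hV1
  have hcd : (0 : ℝ) ≤ Fintype.card d := Nat.cast_nonneg _
  have hx1 : 1 ≤ x := by rw [hx]; nlinarith
  have hent : ∀ (τ : L →+* ℂ) (a j : Fin s), ‖(A.map τ) a j‖ ≤ x := by
    intro τ a j
    rw [Matrix.map_apply, hA, Matrix.of_apply, map_sum]
    simp only [map_mul]
    refine (norm_sum_mul_le (fun i => τ (P (f a) i)) (fun i => τ (v j i)) (by linarith)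
      (fun i => hB τ _ i) (fun i => hV τ j i)).trans ?_
    rw [hx]
    nlinarith
  have hdet : ∀ τ : L →+* ℂ, τ A.det = (A.map τ).det := fun τ => RingHom.map_det τ A
  have hdn1 : (0 : ℝ) < (dn : ℝ) := by exact_mod_cast hdn
  -- the algebraic integer
  have hint : IsIntegral ℤ ((dn : L) ^ s * A.det) := by
    have h1 : (dn : L) ^ s * A.det = ((dn : L) • A).det := by
      rw [Matrix.det_smul, Fintype.card_fin]
    rw [h1]
    refine IsIntegral.det fun a j => ?_
    rw [Matrix.smul_apply, hA, Matrix.of_apply, smul_eq_mul, Finset.mul_sum]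
    refine IsIntegral.sum _ fun i _ => ?_
    have h2 : (dn : L) * (P (f a) i * v j i) = P (f a) i * ((dn : L) * v j i) := by ring
    rw [h2]
    exact (hP _ _).mul (hv _ _)
  have hne : (dn : L) ^ s * A.det ≠ 0 :=
    mul_ne_zero (pow_ne_zero _ (Nat.cast_ne_zero.2 hdn.ne')) hf
  have hprod := prod_embeddings_ge hint hne
  set Q : ℝ := (dn : ℝ) ^ s * ((s.factorial : ℝ) * x ^ s) with hQ
  have hQ0 : 0 ≤ Q := by rw [hQ]; positivity
  have hτ : ∀ τ : L →+* ℂ, ‖τ ((dn : L) ^ s * A.det)‖ ≤ Q := by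
    intro τ
    rw [map_mul, map_pow, map_natCast, norm_mul, norm_pow, Complex.norm_natCast, hdet]
    exact mul_le_mul_of_nonneg_left (norm_det_le _ (hent τ)) (by positivity)
  have hδ0 : 0 ≤ δ := (norm_nonneg _).trans (hδ (f j0))
  have hωn : 0 < ‖ω j0‖ := norm_pos_iff.2 hω
  have hσ : ‖σ ((dn : L) ^ s * A.det)‖ ≤ Q * ((s : ℝ) * δ / ‖ω j0‖) := by
    have h1 : (A.map σ).adjugate *ᵥ ((A.map σ) *ᵥ ω) = (A.map σ).det • ω := by
      rw [Matrix.mulVec_mulVec, Matrix.adjugate_mul, Matrix.smul_mulVec, Matrix.one_mulVec]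
    have h2 := congrFun h1 j0
    rw [Pi.smul_apply, smul_eq_mul] at h2
    have h3 : ∀ a, ((A.map σ) *ᵥ ω) a = ∑ i, σ (P (f a) i) * ∑ j, σ (v j i) * ω j := by
      intro a
      simp only [Matrix.mulVec, dotProduct, Matrix.map_apply, hA, Matrix.of_apply, map_sum, map_mul,
        Finset.sum_mul, Finset.mul_sum]
      rw [Finset.sum_comm]
      exact Finset.sum_congr rfl fun i _ => Finset.sum_congr rfl fun j _ => by ring
    have h4 : ‖(A.map σ).det‖ * ‖ω j0‖ ≤ (s : ℝ) * ((s.factorial : ℝ) * x ^ s * δ) := by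
      rw [← norm_mul, ← h2]
      simp only [Matrix.mulVec, dotProduct] at h3 ⊢
      refine (norm_sum_le _ _).trans ((Finset.sum_le_card_nsmul _ _
        ((s.factorial : ℝ) * x ^ s * δ) fun a _ => ?_).trans ?_)
      · rw [norm_mul]
        refine mul_le_mul (norm_adjugate_le _ hx1 (hent σ) _ _) ?_ (norm_nonneg _) (by positivity)
        have h5 := h3 a
        rw [h5]
        exact hδ (f a)
      · rw [Finset.card_univ, Fintype.card_fin, nsmul_eq_mul]
    rw [map_mul, map_pow, map_natCast, norm_mul, norm_pow, Complex.norm_natCast, hdet]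
    have h6 : ‖(A.map σ).det‖ ≤ (s : ℝ) * ((s.factorial : ℝ) * x ^ s * δ) / ‖ω j0‖ := by
      rw [le_div_iff₀ hωn]
      exact h4
    refine (mul_le_mul_of_nonneg_left h6 (by positivity)).trans (le_of_eq ?_)
    rw [hQ]
    ring
  have hcard : Fintype.card (L →+* ℂ) = Module.finrank ℚ L := NumberField.Embeddings.card L ℂ
  rw [← Finset.mul_prod_erase Finset.univ (fun τ : L →+* ℂ => ‖τ ((dn : L) ^ s * A.det)‖)
    (Finset.mem_univ σ)] at hprod
  have h7 : ∏ τ ∈ Finset.univ.erase σ, ‖τ ((dn : L) ^ s * A.det)‖ ≤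
      Q ^ (Module.finrank ℚ L - 1) := by
    refine (Finset.prod_le_prod (fun _ _ => norm_nonneg _) (fun τ _ => hτ τ)).trans ?_
    rw [Finset.prod_const, Finset.card_erase_of_mem (Finset.mem_univ _), Finset.card_univ, hcard]
  have hn : 0 < Module.finrank ℚ L := Module.finrank_pos
  refine hprod.trans ((mul_le_mul hσ h7 (Finset.prod_nonneg fun _ _ => norm_nonneg _)
    (by positivity)).trans (le_of_eq ?_))
  obtain ⟨n, hn'⟩ := Nat.exists_eq_succ_of_ne_zero hn.ne'
  rw [hn', Nat.succ_sub_one, pow_succ]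
  ring

end Pool.Agent.MTN.H21
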