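import Pool.Agent.Helper21_MTN.Step
import Pool.Agent.Helper21_MTN.Det
import Pool.Agent.Helper97_MTD.Bas
import Pool.Agent.MTN.Stmts

/-!
# The lower bound for the number of independent values at an algebraic point
-/

set_option autoImplicit false
set_option linter.unusedSectionVars false

namespace Pool.Agent.MTN.H21

open BigOperators Polynomial Matrix Pool.Agent.MT100 Pool.Agent.MT100.H76 Pool.Agent.MT100G
open Pool.Agent.MT100G.H76 Pool.Agent.MT100D Pool.Agent.MT100D.H78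

theorem arith (c Q x m M : ℕ) (hM : M = 4 * c + 4) (hQ : 1 ≤ Q) (hx : 1 ≤ x)
    (hm : 6 * Q * x + 1 ≤ m) : (2 * Q * (M + c) + 1) * (x + 1) + 1 ≤ m * M - 1 := by
  subst hM
  have h1 : (2 * Q * (4 * c + 4 + c) + 1) * (x + 1) ≤ (2 * Q * (4 * c + 4 + c) + Q) * (2 * x) :=
    Nat.mul_le_mul (by omega) (by omega)
  have h2 : (6 * Q * x + 1) * (4 * c + 4) ≤ m * (4 * c + 4) := Nat.mul_le_mul_right _ hm
  have h3 : (2 * Q * (4 * c + 4 + c) + Q) * (2 * x) = 20 * (Q * c * x) + 18 * (Q * x) := by ring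
  have h4 : (6 * Q * x + 1) * (4 * c + 4) = 24 * (Q * c * x) + 24 * (Q * x) + 4 * c + 4 := by ring
  omega

theorem arith2 (c c2 Q x m M L : ℕ) (h : (2 * Q * (M + c) + 1) * (x + 1) + 1 ≤ m * M - 1) :
    (Q * (2 * (M * L + c * (m + (L + c2)))) + (L + 1)) * (x + 1) + L ≤
      (m * M - 1) * L + (2 * Q * c * (m + c2) + 1) * (x + 1) := by
  have h1 := Nat.mul_le_mul_right L h
  have h2 : (Q * (2 * (M * L + c * (m + (L + c2)))) + (L + 1)) * (x + 1) + L =
      ((2 * Q * (M + c) + 1) * (x + 1) + 1) * L + (2 * Q * c * (m + c2) + 1) * (x + 1) := by ring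
  omega

/-- the final comparison -/
theorem beat (r g K : ℝ) (hr : 2 ≤ r) (hg1 : 1 ≤ g) (hg : g ≤ r) (hK : 0 ≤ K) (c c2 Q x m M L0 : ℕ)
    (h : (2 * Q * (M + c) + 1) * (x + 1) + 1 ≤ m * M - 1)
    (hall : ∀ L, L0 ≤ L → 1 ≤ K * ((r ^ Q) ^ (2 * (M * L + c * (m + (L + c2)))) * g ^ (L + 1)) ^
      (x + 1) * (r⁻¹) ^ ((m * M - 1) * L)) : False := by
  have hr0 : (0 : ℝ) < r := by linarith
  have hr1 : (1 : ℝ) ≤ r := by linarith
  obtain ⟨K0, hK0⟩ : ∃ K0, K0 = (2 * Q * c * (m + c2) + 1) * (x + 1) := ⟨_, rfl⟩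
  have key : ∀ L, L0 ≤ L → 1 ≤ (K * r ^ K0) * (r⁻¹) ^ L := by
    intro L hL
    refine (hall L hL).trans ?_
    have h1 : ((r ^ Q) ^ (2 * (M * L + c * (m + (L + c2)))) * g ^ (L + 1)) ^ (x + 1) ≤
        r ^ ((Q * (2 * (M * L + c * (m + (L + c2)))) + (L + 1)) * (x + 1)) := by
      have e1 : r ^ ((Q * (2 * (M * L + c * (m + (L + c2)))) + (L + 1)) * (x + 1)) =
          ((r ^ Q) ^ (2 * (M * L + c * (m + (L + c2)))) * r ^ (L + 1)) ^ (x + 1) := by
        rw [← pow_mul r Q, ← pow_add, ← pow_mul]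
      rw [e1]
      refine pow_le_pow_left₀ (by positivity) ?_ _
      exact mul_le_mul_of_nonneg_left (pow_le_pow_left₀ (by linarith) hg _) (by positivity)
    have h2 := arith2 c c2 Q x m M L h
    rw [← hK0] at h2
    have h3 : r ^ ((Q * (2 * (M * L + c * (m + (L + c2)))) + (L + 1)) * (x + 1)) * r ^ L ≤
        r ^ ((m * M - 1) * L) * r ^ K0 := by
      rw [← pow_add, ← pow_add]
      exact pow_le_pow_right₀ hr1 h2
    rw [inv_pow, inv_pow, ← div_eq_mul_inv, ← div_eq_mul_inv, div_le_div_iff₀ (by positivity)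
      (by positivity)]
    calc K * ((r ^ Q) ^ (2 * (M * L + c * (m + (L + c2)))) * g ^ (L + 1)) ^ (x + 1) * r ^ L
        ≤ K * r ^ ((Q * (2 * (M * L + c * (m + (L + c2)))) + (L + 1)) * (x + 1)) * r ^ L := by
          refine mul_le_mul_of_nonneg_right ?_ (by positivity)
          exact mul_le_mul_of_nonneg_left h1 hK
      _ = K * (r ^ ((Q * (2 * (M * L + c * (m + (L + c2)))) + (L + 1)) * (x + 1)) * r ^ L) := by
          ring
      _ ≤ K * (r ^ ((m * M - 1) * L) * r ^ K0) := mul_le_mul_of_nonneg_left h3 hK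
      _ = K * r ^ K0 * r ^ ((m * M - 1) * L) := by ring
  have hlt : r⁻¹ < 1 := inv_lt_one_of_one_lt₀ (by linarith)
  obtain ⟨n, hn⟩ := exists_pow_lt_of_lt_one (show (0 : ℝ) < 1 / (K * r ^ K0 + 1) by positivity) hlt
  have h1 := key (max n L0) (le_max_right _ _)
  have h2 : (r⁻¹) ^ (max n L0) ≤ (r⁻¹) ^ n :=
    pow_le_pow_of_le_one (by positivity) hlt.le (le_max_left _ _)
  have h3 : (K * r ^ K0) * (r⁻¹) ^ (max n L0) ≤ (K * r ^ K0) * (1 / (K * r ^ K0 + 1)) :=
    mul_le_mul_of_nonneg_left (h2.trans hn.le) (by positivity)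
  have h4 : (K * r ^ K0) * (1 / (K * r ^ K0 + 1)) < 1 := by
    rw [mul_one_div, div_lt_one (by positivity)]
    linarith
  linarith

/-- common denominators in a number field -/
theorem exists_den {F : Type} [Field F] [NumberField F] {ι : Type} [Fintype ι] (v : ι → F) :
    ∃ dn : ℕ, 0 < dn ∧ ∀ i, IsIntegral ℤ ((dn : F) * v i) := by
  classical
  obtain ⟨y, hy, h⟩ := exists_integral_multiples ℤ ℚ (Finset.univ.image v)
  refine ⟨y.natAbs, Int.natAbs_pos.2 hy, fun i => ?_⟩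
  have h1 := h (v i) (Finset.mem_image_of_mem v (Finset.mem_univ i))
  rw [zsmul_eq_mul] at h1
  have h2 : ((y.natAbs : ℕ) : F) = ((|y| : ℤ) : F) := by
    rw [Int.abs_eq_natAbs, Int.cast_natCast]
  rw [h2]
  rcases abs_choice y with h3 | h3
  · rw [h3]
    exact h1
  · rw [h3, Int.cast_neg, neg_mul]
    exact h1.neg

/-- coordinates modulo a space of relations -/
theorem exists_coord {F : Type} [Field F] (σ : F →+* ℂ) {d : Type} [Fintype d] [DecidableEq d]
    (ω : d → ℂ) (Nu : Submodule F (d → F)) (hNu : ∀ a, a ∈ Nu ↔ ∑ i, σ (a i) * ω i = 0)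
    (s : ℕ) (hs : s + Module.finrank F Nu = Fintype.card d) :
    ∃ (v : Fin s → d → F) (ω' : Fin s → ℂ), (∀ i, ω i = ∑ j, σ (v j i) * ω' j) ∧
      ∀ c : Fin s → F, (∀ a ∈ Nu, ∑ i, a i * ∑ j, v j i * c j = 0) ∧
        ((∀ i, ∑ j, v j i * c j = 0) → c = 0) := by
  have hfr : Module.finrank F ((d → F) ⧸ Nu) = s := by
    have h1 := Submodule.finrank_quotient_add_finrank Nu
    rw [Module.finrank_fintype_fun_eq_card] at h1
    omega
  subst hfr
  obtain ⟨bs, hbs⟩ : ∃ bs : Module.Basis (Fin (Module.finrank F ((d → F) ⧸ Nu))) F ((d → F) ⧸ Nu),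
      bs = Module.finBasis F ((d → F) ⧸ Nu) := ⟨_, rfl⟩
  have hsur := Submodule.mkQ_surjective Nu
  choose b hb using fun j => hsur (bs j)
  obtain ⟨π, hπ⟩ : ∃ π : (d → F) →ₗ[F] (Fin (Module.finrank F ((d → F) ⧸ Nu)) → F),
      π = bs.equivFun.toLinearMap ∘ₗ Nu.mkQ := ⟨_, rfl⟩
  have hπb : ∀ j, π (b j) = Pi.single j 1 := by
    intro j
    rw [hπ, LinearMap.comp_apply, hb]
    funext k
    show bs.equivFun (bs j) k = _
    rw [Module.Basis.equivFun_apply, Module.Basis.repr_self, Finsupp.single_apply, Pi.single_apply]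
    by_cases h : j = k
    · rw [if_pos h, if_pos h.symm]
    · rw [if_neg h, if_neg (fun h' => h h'.symm)]
  have hπker : ∀ a, π a = 0 ↔ a ∈ Nu := by
    intro a
    rw [hπ, LinearMap.comp_apply]
    show bs.equivFun (Nu.mkQ a) = 0 ↔ _
    rw [LinearEquiv.map_eq_zero_iff, Submodule.mkQ_apply, Submodule.Quotient.mk_eq_zero]
  have hπsum : ∀ a j, π a j = ∑ i, a i * π (Pi.single i 1) j := by
    intro a j
    have h1 : a = ∑ i, a i • (Pi.single i (1 : F) : d → F) := by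
      funext k
      rw [Finset.sum_apply]
      simp [Pi.single_apply]
    conv_lhs => rw [h1]
    rw [map_sum, Finset.sum_apply]
    refine Finset.sum_congr rfl fun i _ => ?_
    rw [map_smul, Pi.smul_apply, smul_eq_mul]
  obtain ⟨φ, hφ⟩ : ∃ φ : (d → F) → ℂ, φ = fun a => ∑ i, σ (a i) * ω i := ⟨_, rfl⟩
  have hφadd : ∀ a a' : d → F, φ (a - a') = φ a - φ a' := by
    intro a a'
    rw [hφ]
    simp only [Pi.sub_apply, map_sub, sub_mul, Finset.sum_sub_distrib]
  have hφsum : ∀ c : Fin (Module.finrank F ((d → F) ⧸ Nu)) → F,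
      φ (∑ j, c j • b j) = ∑ j, σ (c j) * φ (b j) := by
    intro c
    rw [hφ]
    simp only [Finset.sum_apply, Pi.smul_apply, smul_eq_mul, map_sum, map_mul]
    simp only [Finset.sum_mul, Finset.mul_sum]
    rw [Finset.sum_comm]
    refine Finset.sum_congr rfl fun j _ => Finset.sum_congr rfl fun i _ => ?_
    ring
  have hfac : ∀ a, φ a = ∑ j, σ (π a j) * φ (b j) := by
    intro a
    have h1 : a - ∑ j, π a j • b j ∈ Nu := by
      rw [← hπker, map_sub, map_sum]
      simp only [map_smul, hπb]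
      funext k
      rw [Pi.sub_apply, Finset.sum_apply]
      simp [Pi.single_apply]
    have h2 : φ (a - ∑ j, π a j • b j) = 0 := by
      rw [hφ]
      exact (hNu _).1 h1
    rw [hφadd, hφsum] at h2
    exact sub_eq_zero.1 h2
  refine ⟨fun j i => π (Pi.single i 1) j, fun j => φ (b j), fun i => ?_, fun c => ⟨?_, ?_⟩⟩
  · have h1 := hfac (Pi.single i 1)
    have h2 : φ (Pi.single i 1) = ω i := by
      rw [hφ]
      show ∑ k, σ ((Pi.single i (1 : F) : d → F) k) * ω k = _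
      rw [Finset.sum_eq_single i]
      · rw [Pi.single_eq_same, map_one, one_mul]
      · intro k _ hk
        rw [Pi.single_eq_of_ne hk, map_zero, zero_mul]
      · intro hk
        exact absurd (Finset.mem_univ i) hk
    rw [← h2, h1]
  · intro a ha
    have h1 := (hπker a).2 ha
    have h2 : ∑ i, a i * ∑ j, π (Pi.single i 1) j * c j = ∑ j, π a j * c j := by
      simp only [Finset.mul_sum]
      rw [Finset.sum_comm]
      refine Finset.sum_congr rfl fun j _ => ?_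
      rw [hπsum, Finset.sum_mul]
      refine Finset.sum_congr rfl fun i _ => ?_
      ring
    rw [h2, h1]
    simp
  · intro h
    funext k
    have h1 : ∑ i, b k i * ∑ j, π (Pi.single i 1) j * c j = ∑ j, π (b k) j * c j := by
      simp only [Finset.mul_sum]
      rw [Finset.sum_comm]
      refine Finset.sum_congr rfl fun j _ => ?_
      rw [hπsum, Finset.sum_mul]
      refine Finset.sum_congr rfl fun i _ => ?_
      ring
    simp only [h, mul_zero, Finset.sum_const_zero, hπb] at h1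
    rw [Finset.sum_eq_single k] at h1
    · rw [Pi.single_eq_same, one_mul] at h1
      exact h1.symm
    · intro j _ hj
      rw [Pi.single_eq_of_ne hj, zero_mul]
    · intro hk
      exact absurd (Finset.mem_univ k) hk

/-- the lower bound -/
theorem low (hR : RecStmt) (hG : GalDStmt) (hS : SieStmt) (hA : ZsaDStmt) (hE : EvaStmt)
    (Q : ℕ) (hQ : 1 ≤ Q) {d : Type} [Fintype d] [DecidableEq d]
    (H K : Matrix d d (PowerSeries ℚ)) (N : Matrix d d ℤ) (δ : d → ℚ) (q : ℤ[X]) (B : Matrix d d ℤ[X])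
    (S : GSysD H K N δ q B) (u : d → ℤ) (hu : AA N δ *ᵥ (fun i => (u i : ℚ)) = 0)
    (h : d → PowerSeries ℚ) (hh : h = MT100G.hv H (fun j => (u j : ℚ))) :
    ∃ R1 : ℝ, ∀ (F : Type) [Field F] [NumberField F] (σ : F →+* ℂ) (w : F) (a0 : ℕ),
      R1 ≤ ‖σ w‖ → 0 < a0 → IsIntegral ℤ ((a0 : F) * w) → (a0 : ℝ) ≤ ‖σ w‖ ^ Q →
      (∀ τ : F →+* ℂ, ‖τ w‖ ≤ ‖σ w‖ ^ Q) → ∀ Nu Z : Submodule F (d → F),
      (∀ a ∈ Nu, ∑ i, σ (a i) * evC (h i) (σ w)⁻¹ = 0) →
      (∀ p : d → ℚ[X], ∑ i, ((p i : ℚ[X]) : PowerSeries ℚ) * h i = 0 →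
        (fun i => aeval w⁻¹ (p i)) ∈ Z) →
      Fintype.card d - Module.finrank F Z ≤
        6 * Q * Module.finrank ℚ F * (Fintype.card d - Module.finrank F Nu) := by
  by_cases hu0 : u = 0
  · refine ⟨1, fun F _ _ σ w a0 _ _ _ _ _ Nu Z _ hZ => ?_⟩
    have h0 : h = 0 := by
      rw [hh, hu0]
      funext i
      unfold MT100G.hv
      simp
    have h1 : Z = ⊤ := by
      rw [eq_top_iff]
      intro a _
      have h2 : ∀ i : d, (Pi.single i (1 : F) : d → F) ∈ Z := by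
        intro i
        have h3 := hZ (Pi.single i 1) (by rw [h0]; simp)
        have h4 : (fun k => aeval w⁻¹ ((Pi.single i (1 : ℚ[X]) : d → ℚ[X]) k)) =
            (Pi.single i (1 : F) : d → F) := by
          funext k
          by_cases hk : k = i
          · subst hk
            rw [Pi.single_eq_same, Pi.single_eq_same, map_one]
          · rw [Pi.single_eq_of_ne hk, Pi.single_eq_of_ne hk, map_zero]
        rwa [h4] at h3
      have h5 : a = ∑ i, a i • (Pi.single i (1 : F) : d → F) := by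
        funext k
        rw [Finset.sum_apply]
        simp [Pi.single_apply]
      rw [h5]
      exact Z.sum_mem fun i _ => Z.smul_mem _ (h2 i)
    rw [h1, finrank_top, Module.finrank_fintype_fun_eq_card, Nat.sub_self]
    exact Nat.zero_le _
  obtain ⟨i0, hi0⟩ : ∃ i0, u i0 ≠ 0 := by
    by_contra hc
    push Not at hc
    exact hu0 (funext hc)
  have hGh : ∀ i, GType (h i) := by
    intro i
    rw [hh]
    exact GType_hv S.gH _ i
  have hcc : PowerSeries.constantCoeff (h i0) = (u i0 : ℚ) := by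
    rw [hh]
    exact hv_const S.one _ i0
  have hcc0 : PowerSeries.constantCoeff (h i0) ≠ 0 := by
    rw [hcc]
    exact_mod_cast hi0
  have hne0 : h i0 ≠ 0 := by
    intro h0
    rw [h0, map_zero] at hcc0
    exact hcc0 rfl
  obtain ⟨I, e, ε, R, hI, hmax, hRB⟩ := exists_rel h
  obtain ⟨m, hm⟩ : ∃ m, m = I.card := ⟨_, rfl⟩
  have hm1 : 1 ≤ m := by
    have h1 := hmax {i0} (fun p hp hr => by
      rw [Finset.sum_eq_single i0] at hr
      · have h2 := (mul_eq_zero.1 hr).resolve_right hne0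
        have h3 : p i0 = 0 := Polynomial.coe_eq_zero_iff.1 h2
        funext i
        by_cases hi : i = i0
        · rw [hi, h3]
          rfl
        · exact hp i (fun hc => hi (Finset.mem_singleton.1 hc))
      · intro i _ hi
        rw [hp i (fun hc => hi (Finset.mem_singleton.1 hc)), Polynomial.coe_zero, zero_mul]
      · intro hc
        exact absurd (Finset.mem_univ i0) hc)
    rw [Finset.card_singleton] at h1
    omega
  rw [← hm] at ε
  have hcard : Fintype.card d = m + e := by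
    rw [Fintype.card_congr ε, Fintype.card_sum, Fintype.card_fin, Fintype.card_fin]
  obtain ⟨δ0, hδ0, hδne⟩ := const_ne (hGh i0) hcc0
  obtain ⟨ρ, hρ, hρ1, hρs⟩ := exists_radius hE H S.gH
  obtain ⟨c, c2, M, G, L0, R0, hM, hGe, hG1, hR0, hstep⟩ :=
    stepA hR hG hS hA hE H K N δ q B S u hu i0 hi0 h hh I m e hm hm1 ε R hI hRB
  obtain ⟨g, hg1, hg⟩ := hGe
  refine ⟨max (max R0 2) (max (δ0⁻¹ + 1) (max g ρ⁻¹)), ?_⟩
  intro F _ _ σ w a0 hw ha0 haI haT hτ Nu Z hNu hZ
  have hwR : R0 ≤ ‖σ w‖ := ((le_max_left _ _).trans (le_max_left _ _)).trans hw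
  have hw2 : 2 ≤ ‖σ w‖ := ((le_max_right _ _).trans (le_max_left _ _)).trans hw
  have hwδ : δ0⁻¹ + 1 ≤ ‖σ w‖ := ((le_max_left _ _).trans (le_max_right _ _)).trans hw
  have hwg : g ≤ ‖σ w‖ :=
    ((le_max_left _ _).trans ((le_max_right _ _).trans (le_max_right _ _))).trans hw
  have hwρ : ρ⁻¹ ≤ ‖σ w‖ :=
    ((le_max_right _ _).trans ((le_max_right _ _).trans (le_max_right _ _))).trans hw
  have hT : 1 ≤ ‖σ w‖ ^ Q := one_le_pow₀ (by linarith)
  have hxρ : ‖(σ w)⁻¹‖ ≤ ρ := by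
    rw [norm_inv, inv_le_comm₀ (by linarith) hρ]
    exact hwρ
  have hsm : ∀ i, Sm (h i) ‖(σ w)⁻¹‖ := by
    intro i
    rw [hh]
    refine (Sm_hv H _ _ hρs i).mono ?_
    rw [abs_norm, abs_of_pos (by linarith)]
    linarith
  have hω0 : evC (h i0) (σ w)⁻¹ ≠ 0 := by
    refine hδne _ ?_
    rw [norm_inv, inv_lt_comm₀ (by linarith) hδ0]
    linarith
  -- the dimension of `Z`
  obtain ⟨hli, -⟩ := hstep L0 le_rfl F σ w a0 (‖σ w‖ ^ Q) hwR ha0 haI hT haT hτ
  have hZe : e ≤ Module.finrank F Z := by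
    have h1 : LinearIndependent F (fun l : Fin e =>
        (⟨fun i => aeval w⁻¹ (R l i), hZ (R l) (hRB.rel l)⟩ : Z)) :=
      LinearIndependent.of_comp Z.subtype hli
    have h2 := h1.fintype_card_le_finrank
    rwa [Fintype.card_fin] at h2
  -- all the relations
  obtain ⟨Nf, hNf⟩ : ∃ Nf : Submodule F (d → F), ∀ a, a ∈ Nf ↔
      ∑ i, σ (a i) * evC (h i) (σ w)⁻¹ = 0 := ⟨
    { carrier := {a | ∑ i, σ (a i) * evC (h i) (σ w)⁻¹ = 0}
      zero_mem' := by simp
      add_mem' := fun {a b} ha hb => by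
        show ∑ i, σ (a i + b i) * evC (h i) (σ w)⁻¹ = 0
        simp only [map_add, add_mul, Finset.sum_add_distrib]
        rw [show ∑ i, σ (a i) * evC (h i) (σ w)⁻¹ = 0 from ha,
          show ∑ i, σ (b i) * evC (h i) (σ w)⁻¹ = 0 from hb, add_zero]
      smul_mem' := fun r a ha => by
        show ∑ i, σ (r * a i) * evC (h i) (σ w)⁻¹ = 0
        simp only [map_mul, mul_assoc]
        rw [← Finset.mul_sum, show ∑ i, σ (a i) * evC (h i) (σ w)⁻¹ = 0 from ha, mul_zero] },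
    fun a => Iff.rfl⟩
  have hle : Module.finrank F Nu ≤ Module.finrank F Nf :=
    Submodule.finrank_mono fun a ha => (hNf a).2 (hNu a ha)
  have hNfc : Module.finrank F Nf ≤ Fintype.card d := by
    have := Submodule.finrank_le Nf
    rwa [Module.finrank_fintype_fun_eq_card] at this
  obtain ⟨s, hs⟩ : ∃ s, s + Module.finrank F Nf = Fintype.card d :=
    ⟨Fintype.card d - Module.finrank F Nf, by omega⟩
  obtain ⟨n, hn⟩ : ∃ n, n = Module.finrank ℚ F := ⟨_, rfl⟩
  have hn1 : 1 ≤ n := by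
    rw [hn]
    exact Module.finrank_pos
  suffices hsm' : m ≤ 6 * Q * (s * n) by
    have h1 : 6 * Q * (s * n) ≤ 6 * Q * n * (Fintype.card d - Module.finrank F Nu) := by
      have h2 : s ≤ Fintype.card d - Module.finrank F Nu := by omega
      calc 6 * Q * (s * n) = 6 * Q * n * s := by ring
        _ ≤ _ := Nat.mul_le_mul_left _ h2
    rw [← hn]
    omega
  by_contra hlt
  have hlt' : 6 * Q * (s * n) + 1 ≤ m := by omega
  obtain ⟨v, ω', hω, hinj⟩ := exists_coord σ (fun i => evC (h i) (σ w)⁻¹) Nf hNf s hs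
  obtain ⟨j0, hj0⟩ : ∃ j0, ω' j0 ≠ 0 := by
    by_contra hc
    push Not at hc
    apply hω0
    have h1 := hω i0
    simp only [hc, mul_zero, Finset.sum_const_zero] at h1
    exact h1
  have hs1 : 1 ≤ s := Nat.one_le_iff_ne_zero.2 (fun h0 => by
    subst h0
    exact j0.elim0)
  have hsn : 1 ≤ s * n := Nat.mul_pos hs1 hn1
  obtain ⟨dn, hdn, hdv⟩ := exists_den (fun x : Fin s × d => v x.1 x.2)
  obtain ⟨V, hV1, hV⟩ : ∃ V : ℝ, 1 ≤ V ∧ ∀ (τ : F →+* ℂ) j i, ‖τ (v j i)‖ ≤ V := by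
    refine ⟨1 + ∑ x : (F →+* ℂ) × (Fin s × d), ‖x.1 (v x.2.1 x.2.2)‖, ?_, fun τ j i => ?_⟩
    · have : 0 ≤ ∑ x : (F →+* ℂ) × (Fin s × d), ‖x.1 (v x.2.1 x.2.2)‖ :=
        Finset.sum_nonneg fun _ _ => norm_nonneg _
      linarith
    · have := Finset.single_le_sum (f := fun x : (F →+* ℂ) × (Fin s × d) => ‖x.1 (v x.2.1 x.2.2)‖)
        (fun _ _ => norm_nonneg _) (Finset.mem_univ (τ, (j, i)))
      simp only at this
      linarith
  have hRl : ∀ l, (fun i => aeval w⁻¹ (R l i)) ∈ Nf := by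
    intro l
    rw [hNf]
    have h1 := evC_form (R l) h (σ w)⁻¹ hsm
    rw [hRB.rel] at h1
    have h2 : evC 0 (σ w)⁻¹ = 0 := by
      unfold evC
      simp
    rw [h2] at h1
    rw [h1]
    refine Finset.sum_congr rfl fun i _ => ?_
    rw [← map_inv₀, sigma_aeval]
  refine beat ‖σ w‖ g (((dn : ℝ) ^ s * ((s.factorial : ℝ) * (((Fintype.card d : ℝ) + 1) * V) ^ s)) ^ n *
    ((s : ℝ) / ‖ω' j0‖)) hw2 hg1 hwg (by positivity) c c2 Q (s * n) m M L0
    (arith c Q (s * n) m M hM hQ hsn hlt') fun L hL => ?_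
  obtain ⟨-, P, hPinj, hPint, hPb, hPs⟩ :=
    hstep L hL F σ w a0 (‖σ w‖ ^ Q) hwR ha0 haI hT haT hτ
  obtain ⟨Bd, hBd⟩ : ∃ Bd, Bd = (‖σ w‖ ^ Q) ^ (2 * (M * L + c * (m + (L + c2)))) * G L := ⟨_, rfl⟩
  rw [← hBd] at hPb hPs
  have hBd1 : 1 ≤ Bd := by
    rw [hBd]
    exact one_le_mul_of_one_le_of_one_le (one_le_pow₀ hT) (hG1 L)
  have hfin := det_nf σ v dn hdn (fun j i => hdv (j, i)) V hV1 hV ω' j0 hj0 P hPint Bd hBd1 hPb
    (Bd * (‖σ w‖⁻¹) ^ ((m * M - 1) * L)) (fun k => by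
      refine le_trans (le_of_eq ?_) (hPs k)
      congr 1
      refine Finset.sum_congr rfl fun i _ => ?_
      rw [hω i]) (fun cc hcc => by
      obtain ⟨h1, h2⟩ := hinj cc
      refine h2 fun i => ?_
      have h3 := hPinj (fun i => ∑ j, v j i * cc j) (fun k => by
        rw [← hcc k]
        simp only [Finset.mul_sum, Finset.sum_mul]
        rw [Finset.sum_comm]
        refine Finset.sum_congr rfl fun j _ => Finset.sum_congr rfl fun i _ => ?_
        ring) (fun l => h1 _ (hRl l))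
      exact congrFun h3 i)
  refine hfin.trans ?_
  rw [← hn]
  have e1 : ((dn : ℝ) ^ s * ((s.factorial : ℝ) * (((Fintype.card d : ℝ) + 1) * (Bd * V)) ^ s)) ^ n *
      ((s : ℝ) * (Bd * (‖σ w‖⁻¹) ^ ((m * M - 1) * L)) / ‖ω' j0‖) =
      ((dn : ℝ) ^ s * ((s.factorial : ℝ) * (((Fintype.card d : ℝ) + 1) * V) ^ s)) ^ n *
      ((s : ℝ) / ‖ω' j0‖) * Bd ^ (s * n + 1) * (‖σ w‖⁻¹) ^ ((m * M - 1) * L) := by
    have e2 : (((Fintype.card d : ℝ) + 1) * (Bd * V)) ^ s =
        (((Fintype.card d : ℝ) + 1) * V) ^ s * Bd ^ s := by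
      rw [← mul_pow]
      congr 1
      ring
    rw [e2, ← mul_assoc, ← mul_assoc, mul_pow, ← pow_mul, mul_assoc ((dn : ℝ) ^ s), pow_succ]
    ring
  rw [e1]
  refine mul_le_mul_of_nonneg_right ?_ (by positivity)
  refine mul_le_mul_of_nonneg_left ?_ (by positivity)
  refine pow_le_pow_left₀ (by linarith) ?_ _
  rw [hBd]
  exact mul_le_mul_of_nonneg_left (hg L).2 (by positivity)

end Pool.Agent.MTN.H21
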