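import Pool.Agent.Helper21_MTN.Zsb
import Pool.Agent.Helper21_MTN.Cx

/-!
# Integral rows at an algebraic point
-/

set_option autoImplicit false
set_option linter.unusedSectionVars false

namespace Pool.Agent.MTN.H21

open BigOperators Polynomial Matrix Pool.Agent.MT100 Pool.Agent.MT100.H76 Pool.Agent.MT100G
open Pool.Agent.MT100G.H76 Pool.Agent.MT100D Pool.Agent.MT100D.H78

theorem sigma_aeval {F : Type} [Field F] [NumberField F] (σ : F →+* ℂ) (x : F) (p : ℚ[X]) :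
    aeval (σ x) p = σ (aeval x p) :=
  aeval_algHom_apply σ.toRatAlgHom x p

theorem nrm_smul' (D : ℕ) (p : ℚ[X]) : nrm ((D : ℚ) • p) = (D : ℚ) * nrm p := by
  by_cases hD : D = 0
  · subst hD
    unfold nrm
    simp
  · have hD' : (D : ℚ) ≠ 0 := by exact_mod_cast hD
    unfold nrm
    have h1 : ((D : ℚ) • p).support = p.support := by
      ext k
      simp [Polynomial.mem_support_iff, hD]
    rw [h1, Finset.mul_sum]
    refine Finset.sum_congr rfl fun i _ => ?_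
    rw [coeff_smul, smul_eq_mul, abs_mul, abs_of_nonneg (Nat.cast_nonneg D)]

/-- the integral rows at an algebraic point -/
theorem stepA (hR : RecStmt) (hG : GalDStmt) (hS : SieStmt) (hA : ZsaDStmt) (hE : EvaStmt)
    {d : Type} [Fintype d] [DecidableEq d]
    (H K : Matrix d d (PowerSeries ℚ)) (N : Matrix d d ℤ) (δ : d → ℚ) (q : ℤ[X]) (B : Matrix d d ℤ[X])
    (S : GSysD H K N δ q B) (u : d → ℤ)
    (hu : AA N δ *ᵥ (fun i => (u i : ℚ)) = 0) (i0 : d) (hi0 : u i0 ≠ 0)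
    (h : d → PowerSeries ℚ) (hh : h = hv H (fun j => (u j : ℚ))) (I : Finset d) (m e : ℕ)
    (hm : m = I.card) (hm1 : 1 ≤ m) (ε : d ≃ Fin m ⊕ Fin e) (R : Fin e → d → ℚ[X])
    (hI : Ind h I) (hRB : RelB h R) :
    ∃ (c c2 M : ℕ) (G : ℕ → ℝ) (L0 : ℕ) (R0 : ℝ), M = 4 * c + 4 ∧ ExpB G ∧
      (∀ L, 1 ≤ G L) ∧ 1 ≤ R0 ∧
      ∀ L, L0 ≤ L → ∀ (F : Type) [Field F] [NumberField F] (σ : F →+* ℂ) (w : F) (a0 : ℕ) (T : ℝ),
        R0 ≤ ‖σ w‖ → 0 < a0 → IsIntegral ℤ ((a0 : F) * w) → 1 ≤ T → (a0 : ℝ) ≤ T →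
        (∀ τ : F →+* ℂ, ‖τ w‖ ≤ T) →
        LinearIndependent F (fun l i => aeval w⁻¹ (R l i)) ∧
        ∃ v : Fin (m + (L + c2)) → d → F,
        (∀ y : d → F, (∀ k, ∑ i, v k i * y i = 0) →
          (∀ l, ∑ i, aeval w⁻¹ (R l i) * y i = 0) → y = 0) ∧
        (∀ k i, IsIntegral ℤ (v k i)) ∧
        (∀ (τ : F →+* ℂ) k i, ‖τ (v k i)‖ ≤ T ^ (2 * (M * L + c * (m + (L + c2)))) * G L) ∧
        (∀ k, ‖∑ i, σ (v k i) * evC (h i) (σ w)⁻¹‖ ≤
          T ^ (2 * (M * L + c * (m + (L + c2)))) * G L * (‖σ w‖⁻¹) ^ ((m * M - 1) * L)) := by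
  obtain ⟨uq, huq⟩ : ∃ uq : d → ℚ, uq = fun j => (u j : ℚ) := ⟨_, rfl⟩
  rw [← huq] at hh
  have huN : AA N δ *ᵥ uq = 0 := by
    rw [huq]
    exact hu
  -- the degree bound
  obtain ⟨c, hc1, hc2⟩ : ∃ c : ℕ, (X * zq q).natDegree ≤ c ∧
      ∀ i j, (zq (B i j)).natDegree ≤ c := by
    refine ⟨(X * zq q).natDegree + ∑ l : d × d, (zq (B l.1 l.2)).natDegree, by omega, ?_⟩
    intro i j
    have := Finset.single_le_sum (f := fun l : d × d => (zq (B l.1 l.2)).natDegree)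
      (fun _ _ => Nat.zero_le _) (Finset.mem_univ (i, j))
    simp only at this
    omega
  obtain ⟨M, hM⟩ : ∃ M, M = 4 * c + 4 := ⟨_, rfl⟩
  have hM3 : 3 ≤ M := by omega
  have hne : Nonempty {i // i ∈ I} := by
    have : 0 < I.card := by omega
    obtain ⟨i, hi⟩ := Finset.card_pos.1 this
    exact ⟨⟨i, hi⟩⟩
  have hGh : ∀ i, GType (h i) := by
    intro i
    rw [hh]
    exact GType_hv S.gH uq i
  obtain ⟨Cg, hCg0, hCg⟩ := hG d H K N δ q B S
  obtain ⟨Cs, hCs0, hCs⟩ := hS {i // i ∈ I} (fun l => h l.1) (fun l => hGh _) M (by omega)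
  rw [Fintype.card_coe, ← hm] at hCs
  obtain ⟨c0, hc0⟩ := hA d H K N δ q B S uq huN m e ε R (by rw [← hh]; exact hRB)
  obtain ⟨c2, Gp, hGp, hzb⟩ := zsbA (zq q) (zq_ne S.q0) (B.map zq) (AA N δ) H S.one
    (gsysD_ode S.toGSysW) uq huN m e ε R (by rw [← hh]; exact hRB)
  obtain ⟨δG, hδG, hGne⟩ := poly_ne Gp hGp
  rw [← hh] at hc0 hzb
  obtain ⟨ρ, hρ, hρ1, hρs⟩ := exists_radius hE H S.gH
  have hρh : ∀ i, Sm (h i) (2 * ρ) := by
    intro i
    rw [hh]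
    exact Sm_hv H uq _ hρs i
  obtain ⟨h0, hh0, hhn⟩ : ∃ h0 : ℝ, 0 ≤ h0 ∧ ∀ i, Nm (h i) (2 * ρ) ≤ h0 := by
    refine ⟨∑ i, Nm (h i) (2 * ρ), Finset.sum_nonneg (fun _ _ => Nm_nonneg _ _), ?_⟩
    intro i
    exact Finset.single_le_sum (f := fun i => Nm (h i) (2 * ρ))
      (fun _ _ => Nm_nonneg _ _) (Finset.mem_univ i)
  obtain ⟨Q, hQ1, hQ⟩ : ∃ Q : ℝ, 1 ≤ Q ∧ ((nrm (zq q) : ℚ) : ℝ) ≤ Q :=
    ⟨max 1 _, le_max_left _ _, le_max_right _ _⟩
  have hρi : 1 ≤ ρ⁻¹ := by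
    rw [one_le_inv₀ hρ]
    linarith
  have hCg1 : (1 : ℝ) ≤ Cg := by exact_mod_cast hCg0
  have hCs1 : (1 : ℝ) ≤ Cs := by exact_mod_cast hCs0
  -- the size of `u`
  obtain ⟨U, hU⟩ : ∃ U : ℕ, ∀ s, (u s).natAbs ≤ U :=
    ⟨∑ s, (u s).natAbs, fun s => Finset.single_le_sum (f := fun s => (u s).natAbs)
      (fun _ _ => Nat.zero_le _) (Finset.mem_univ s)⟩
  let TT : ℕ → ℕ := fun L => m + (L + c2)
  let A : ℕ → ℝ := fun L => (Fintype.card (d × d) : ℝ) *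
    (((M : ℝ) * L + 1) * ((U : ℝ) * (Cs : ℝ) ^ L))
  let V : ℕ → ℝ := fun L => (Cg : ℝ) ^ (TT L + 1) * (A L * 2 ^ (M * L) * (Cg : ℝ) ^ (TT L + 1))
  let W : ℕ → ℝ := fun L => (Cg : ℝ) ^ (TT L + 1) *
    ((ρ⁻¹) ^ ((m * M - 1) * L) * (Q ^ TT L * (A L * h0)))
  have hexpA : ExpB A := (ExpB.const (Nat.cast_nonneg _)).mul
    ((ExpB.lin M).mul ((ExpB.const (Nat.cast_nonneg U)).mul
      (ExpB.geom' hCs1 (fun L => L) 1 0 (fun L => by ring))))
  have hexpC : ExpB (fun L => (Cg : ℝ) ^ (TT L + 1)) :=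
    ExpB.geom' hCg1 (fun L => TT L + 1) 1 (m + c2 + 1) (fun L => by simp only [TT]; ring)
  have hexpV : ExpB V := by
    have h2 : ExpB (fun L => (2 : ℝ) ^ (M * L)) :=
      ExpB.geom' one_le_two (fun L => M * L) M 0 (fun L => by ring)
    exact hexpC.mul ((hexpA.mul h2).mul hexpC)
  have hexpW : ExpB W := by
    have h2 : ExpB (fun L => (ρ⁻¹ : ℝ) ^ ((m * M - 1) * L)) :=
      ExpB.geom' hρi (fun L => (m * M - 1) * L) (m * M - 1) 0 (fun L => by ring)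
    have h3 : ExpB (fun L => Q ^ TT L) :=
      ExpB.geom' hQ1 TT 1 (m + c2) (fun L => by simp only [TT]; ring)
    exact hexpC.mul (h2.mul (h3.mul (hexpA.mul (ExpB.const hh0))))
  have hA0 : ∀ L, 0 ≤ A L := fun L => by simp only [A]; positivity
  have hV0 : ∀ L, 0 ≤ V L := fun L => by
    have := hA0 L
    simp only [V]
    positivity
  have hW0 : ∀ L, 0 ≤ W L := fun L => by
    have := hA0 L
    simp only [W]
    positivity
  have hU0 : |((u i0 : ℤ) : ℝ)| ≤ U := by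
    have h1 := hU i0
    have h2 : |((u i0 : ℤ) : ℝ)| = (((u i0).natAbs : ℕ) : ℝ) := by
      rw [Nat.cast_natAbs]
      push_cast
      rfl
    rw [h2]
    exact_mod_cast h1
  have hu1 : (1 : ℚ) ≤ |uq i0| := by
    rw [huq]
    have := Int.one_le_abs hi0
    show (1 : ℚ) ≤ |((u i0 : ℤ) : ℚ)|
    rw [← Int.cast_abs]
    exact_mod_cast this
  refine ⟨c, c2, M, fun L => 1 + (V L + (U : ℝ) * W L), c0 + 1, max 1 (max (δG⁻¹ + 1) ρ⁻¹), hM,
    ExpB.add (ExpB.const zero_le_one)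
      (ExpB.add hexpV ((ExpB.const (Nat.cast_nonneg U)).mul hexpW)), fun L => by
      have := hV0 L
      have := mul_nonneg (Nat.cast_nonneg (α := ℝ) U) (hW0 L)
      show (1 : ℝ) ≤ 1 + (V L + (U : ℝ) * W L)
      linarith, le_max_left _ _, ?_⟩
  intro L hL F _ _ σ w a0 T hw ha0 haI hT haT hτ
  have hw1 : 1 ≤ ‖σ w‖ := (le_max_left _ _).trans hw
  have hw2 : δG⁻¹ + 1 ≤ ‖σ w‖ := ((le_max_left _ _).trans (le_max_right _ _)).trans hw
  have hw3 : ρ⁻¹ ≤ ‖σ w‖ := ((le_max_right _ _).trans (le_max_right _ _)).trans hw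
  have hw0 : w ≠ 0 := by
    rintro rfl
    rw [map_zero, norm_zero] at hw1
    linarith
  have hξ0 : w⁻¹ ≠ 0 := inv_ne_zero hw0
  have hGξ : aeval w⁻¹ Gp ≠ 0 := by
    intro h0
    refine hGne (σ w)⁻¹ ?_ ?_ ?_
    · rw [norm_inv, inv_lt_comm₀ (by linarith) hδG]
      linarith
    · rw [← map_inv₀]
      exact (map_ne_zero σ).2 hξ0
    · rw [← map_inv₀, sigma_aeval, h0, map_zero]
  have hL1 : 1 ≤ L := by omega
  obtain ⟨P', hP0, hPd, hPc⟩ := hCs L hL1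
  obtain ⟨P, hP⟩ : ∃ P : d → ℤ[X], P = fun i => if hi : i ∈ I then P' ⟨i, hi⟩ else 0 := ⟨_, rfl⟩
  have hPin : ∀ l : {i // i ∈ I}, P l.1 = P' l := by
    intro l
    rw [hP]
    exact dif_pos l.2
  have hPout : ∀ i, i ∉ I → P i = 0 := by
    intro i hi
    rw [hP]
    exact dif_neg hi
  have hPdc : ∀ i, (P i).natDegree ≤ M * L ∧ ∀ k, |(P i).coeff k| ≤ (Cs : ℤ) ^ L := by
    intro i
    by_cases hi : i ∈ I
    · rw [hPin ⟨i, hi⟩]
      exact hPd _
    · rw [hPout i hi]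
      refine ⟨by simp, fun k => ?_⟩
      rw [coeff_zero, abs_zero]
      positivity
  have hsum : ∑ i, ((zq (P i) : ℚ[X]) : PowerSeries ℚ) * h i = ∑ l, zp (P' l) * h l.1 := by
    have h1 : ∑ i, ((zq (P i) : ℚ[X]) : PowerSeries ℚ) * h i =
        ∑ i ∈ I, ((zq (P i) : ℚ[X]) : PowerSeries ℚ) * h i := by
      refine (Finset.sum_subset (Finset.subset_univ I) (fun i _ hi => ?_)).symm
      rw [hPout i hi]
      unfold zq
      rw [Polynomial.map_zero, Polynomial.coe_zero, zero_mul]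
    rw [h1, ← Finset.sum_coe_sort]
    refine Finset.sum_congr rfl (fun l _ => ?_)
    rw [hPin l]
    rfl
  have hcoef : ∀ i < (m * M - 1) * L, PowerSeries.coeff i
      (∑ i, ((zq (P i) : ℚ[X]) : PowerSeries ℚ) * h i) = 0 := by
    intro i hi
    rw [hsum]
    exact hPc i hi
  have hne : ∑ i, ((zq (P i) : ℚ[X]) : PowerSeries ℚ) * h i ≠ 0 := by
    intro h0
    have h1 := hI (fun i => zq (P i)) (fun i hi => by
      rw [hPout i hi]
      unfold zq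
      exact Polynomial.map_zero _) h0
    apply hP0
    funext l
    have h2 := congrFun h1 l.1
    simp only [Pi.zero_apply] at h2 ⊢
    rw [hPin l] at h2
    by_contra h3
    exact zq_ne_zero h3 h2
  have hPdeg' : ∀ i, (zq (P i)).natDegree ≤ M * L := by
    intro i
    rw [natDegree_zq]
    exact (hPdc i).1
  have hdet := hc0 (M * L) (fun i => zq (P i)) hPdeg' hne (fun i hi => hcoef i
    (lt_of_le_of_lt hi (index_lt m M L c0 hm1 hM3 (by omega))))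
  obtain ⟨hli, hspan⟩ := hzb (M * L) ((m * M - 1) * L) (L + c2) (fun i => zq (P i)) hPdeg'
    hcoef hdet (index_le m M L c2 (Nat.mul_pos hm1 (by omega))) F w⁻¹
    (Algebra.IsIntegral.isIntegral _) hξ0 hGξ
  refine ⟨hli, ?_⟩
  -- denominators and sizes
  obtain ⟨Dg, hD0, hD1, hD⟩ := hCg (TT L)
  obtain ⟨Pm, hPm⟩ : ∃ Pm : Matrix d d ℤ[X], Pm = Matrix.of fun s j => C (u s) * P j := ⟨_, rfl⟩
  have hPmq : Pm.map zq = otr uq (fun j => zq (P j)) := by
    ext1 s j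
    rw [hPm, Matrix.map_apply, otr_apply, huq]
    unfold zq
    rw [Matrix.of_apply, Polynomial.map_mul, Polynomial.map_C]
    rfl
  have hPmdeg : ∀ s j, (Pm s j).natDegree ≤ M * L := by
    intro s j
    rw [hPm]
    exact (Polynomial.natDegree_C_mul_le _ _).trans (hPdc j).1
  have hPn := sum_nrm_le Pm (M * L) (U * Cs ^ L) (fun s j => ⟨hPmdeg s j, fun k => by
    rw [hPm]
    show |(C (u s) * P j).coeff k| ≤ _
    rw [coeff_C_mul, abs_mul]
    push_cast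
    refine mul_le_mul ?_ ((hPdc j).2 k) (abs_nonneg _) (by positivity)
    rw [Int.abs_eq_natAbs]
    exact_mod_cast hU s⟩)
  have hspec := hD (M * L) _ Pm hPmdeg hPn
  rw [hPmq] at hspec
  obtain ⟨Z, hZ⟩ : ∃ Z : ℕ → d → ℚ[X], Z = Pv (zq q) (B.map zq) (fun j => zq (P j)) := ⟨_, rfl⟩
  have hPk : ∀ k, Pk (zq q) (B.map zq) (AA N δ) (otr uq (fun j => zq (P j))) k =
      otr uq (Z k) := by
    intro k
    rw [hZ]
    exact Pk_outer _ _ _ uq huN _ k
  simp only [hPk, otr_apply] at hspec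
  rw [← hZ] at hspan
  have hZdeg : ∀ k ≤ TT L, ∀ i, (C (uq i0) * Z k i).natDegree ≤ M * L + c * TT L := by
    intro k hk i
    have h1 := hR.2 d d (zq q) (B.map zq) (AA N δ) (otr uq (fun j => zq (P j)))
      c (M * L) hc1 (fun i j => hc2 i j) (fun s j =>
        (Polynomial.natDegree_C_mul_le _ _).trans (hPdeg' j)) k i0 i
    rw [hPk] at h1
    exact h1.trans (Nat.add_le_add_left (Nat.mul_le_mul_left _ hk) _)
  have hune : uq i0 ≠ 0 := by
    intro h0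
    rw [h0, abs_zero] at hu1
    linarith
  have hDle : (Dg : ℚ) ≤ (Cg : ℚ) ^ (TT L + 1) := by exact_mod_cast hD1
  have hDR : (Dg : ℝ) ≤ (Cg : ℝ) ^ (TT L + 1) := by exact_mod_cast hD1
  obtain ⟨E, hE'⟩ : ∃ E, E = M * L + c * TT L := ⟨_, rfl⟩
  have hEE : M * L + c * (m + (L + c2)) = E := hE'.symm
  rw [hEE]
  obtain ⟨v, hv⟩ : ∃ v : Fin (m + (L + c2)) → d → F, v = fun (k : Fin (m + (L + c2))) i =>
      (a0 : F) ^ E * w ^ E * aeval w⁻¹ ((Dg : ℚ) • (C (uq i0) * Z k i)) := ⟨_, rfl⟩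
  have hve : ∀ k i, v k i = ((a0 : F) ^ E * w ^ E * (algebraMap ℚ F (Dg * uq i0))) *
      aeval w⁻¹ (Z k i) := by
    intro k i
    rw [hv]
    show (a0 : F) ^ E * w ^ E * aeval w⁻¹ ((Dg : ℚ) • (C (uq i0) * Z k i)) = _
    rw [map_smul, map_mul, aeval_C, Algebra.smul_def, map_mul (algebraMap ℚ F)]
    ring
  have hne' : ((a0 : F) ^ E * w ^ E * (algebraMap ℚ F (Dg * uq i0))) ≠ 0 := by
    refine mul_ne_zero (mul_ne_zero (pow_ne_zero _ ?_) (pow_ne_zero _ hw0)) ?_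
    · exact_mod_cast ha0.ne'
    · rw [Ne, map_eq_zero]
      exact mul_ne_zero (by exact_mod_cast hD0.ne') hune
  refine ⟨v, ?_, ?_, ?_, ?_⟩
  · intro y hy1 hy2
    refine hspan y (fun k hk => ?_) hy2
    have h2 := hy1 ⟨k, hk⟩
    simp only [hve, mul_assoc _ (aeval w⁻¹ _) _] at h2
    rw [← Finset.mul_sum] at h2
    exact (mul_eq_zero.1 h2).resolve_left hne'
  · intro k i
    obtain ⟨z, hz⟩ := (hspec k (le_of_lt k.2)).1 i0 i
    have hzdeg : z.natDegree ≤ E := by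
      rw [← natDegree_zq, ← hz, hE']
      exact (Polynomial.natDegree_smul_le _ _).trans (hZdeg k (le_of_lt k.2) _)
    rw [hv]
    show IsIntegral ℤ ((a0 : F) ^ E * w ^ E * aeval w⁻¹ ((Dg : ℚ) • (C (uq i0) * Z k i)))
    rw [hz]
    exact int_valueA z E a0 w hw0 haI hzdeg
  · intro τ k i
    rw [hv]
    have h1 := conj_bound τ ((Dg : ℚ) • (C (uq i0) * Z k i)) E a0 w hw0 T hT haT (hτ τ) (by
      rw [hE']
      exact (Polynomial.natDegree_smul_le _ _).trans (hZdeg k (le_of_lt k.2) _))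
    refine h1.trans ?_
    refine mul_le_mul_of_nonneg_left ?_ (by positivity)
    have h2 : nrm ((Dg : ℚ) • (C (uq i0) * Z k i)) ≤ (Cg : ℚ) ^ (TT L + 1) *
        ((Fintype.card (d × d) : ℚ) * ((((M * L : ℕ) : ℚ) + 1) * ((U * Cs ^ L : ℕ) : ℚ)) *
          2 ^ (M * L) * (Cg : ℚ) ^ (TT L + 1)) := by
      rw [nrm_smul']
      refine mul_le_mul hDle ?_ (nrm_nonneg _) (by positivity)
      refine le_trans ?_ (hspec k (le_of_lt k.2)).2
      have e1 : nrm (C (uq i0) * Z k i) ≤ ∑ j, nrm (C (uq i0) * Z k j) :=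
        Finset.single_le_sum (f := fun j => nrm (C (uq i0) * Z k j)) (fun _ _ => nrm_nonneg _)
          (Finset.mem_univ i)
      have e2 : ∑ j, nrm (C (uq i0) * Z k j) ≤ ∑ i, ∑ j, nrm (C (uq i) * Z k j) :=
        Finset.single_le_sum (f := fun i => ∑ j, nrm (C (uq i) * Z k j))
          (fun _ _ => Finset.sum_nonneg (fun _ _ => nrm_nonneg _)) (Finset.mem_univ i0)
      exact e1.trans e2
    have h3 : ((nrm ((Dg : ℚ) • (C (uq i0) * Z k i)) : ℚ) : ℝ) ≤ _ := Rat.cast_le.2 h2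
    refine h3.trans ?_
    have h4 : V L ≤ 1 + (V L + (U : ℝ) * W L) := by
      have : 0 ≤ (U : ℝ) * W L := mul_nonneg (Nat.cast_nonneg _) (hW0 L)
      linarith
    refine le_trans (le_of_eq ?_) h4
    simp only [V, A, TT]
    push_cast
    ring
  · intro k
    have hxρ : ‖(σ w)⁻¹‖ ≤ ρ := by
      rw [norm_inv, inv_le_comm₀ (by linarith) hρ]
      exact hw3
    have h2ρ : |(2 * ρ)| = 2 * ρ := abs_of_pos (by linarith)
    have hsm : ∀ i, Sm (h i) ‖(σ w)⁻¹‖ := by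
      intro i
      refine (hρh i).mono ?_
      rw [abs_norm, h2ρ]
      linarith
    have h1 := evC_form (Z k) h (σ w)⁻¹ hsm
    have hrec := rec_coeD S.toGSysW hR (otr uq (fun j => zq (P j))) k
    rw [hPk, trace_outer, trace_outer, ← hh] at hrec
    rw [hrec] at h1
    have h2 : ∑ i, σ (v k i) * evC (h i) (σ w)⁻¹ =
        σ ((a0 : F) ^ E * w ^ E * (algebraMap ℚ F (Dg * uq i0))) *
          ∑ i, aeval (σ w)⁻¹ (Z k i) * evC (h i) (σ w)⁻¹ := by
      rw [Finset.mul_sum]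
      refine Finset.sum_congr rfl fun i _ => ?_
      rw [hve, map_mul, ← map_inv₀, sigma_aeval]
      ring
    have h3 : ‖σ ((a0 : F) ^ E * w ^ E * (algebraMap ℚ F (Dg * uq i0)))‖ ≤
        T ^ (2 * E) * ((Cg : ℝ) ^ (TT L + 1) * (U : ℝ)) := by
      rw [map_mul, map_mul, map_pow, map_pow, map_natCast, norm_mul, norm_mul, norm_pow, norm_pow,
        Complex.norm_natCast, eq_ratCast (algebraMap ℚ F), map_ratCast, norm_ratC, two_mul, pow_add]
      refine mul_le_mul (mul_le_mul (pow_le_pow_left₀ (Nat.cast_nonneg _) haT E)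
        (pow_le_pow_left₀ (norm_nonneg _) (hτ σ) E) (by positivity) (by positivity)) ?_
        (abs_nonneg _) (by positivity)
      rw [Rat.cast_mul, abs_mul, Rat.cast_natCast, Nat.abs_cast]
      refine mul_le_mul hDR ?_ (abs_nonneg _) (by positivity)
      have h5 : ((uq i0 : ℚ) : ℝ) = ((u i0 : ℤ) : ℝ) := by
        rw [huq]
        push_cast
        rfl
      rw [h5]
      exact hU0
    rw [h2, ← h1, norm_mul]
    have hA' : ((∑ i, nrm (zq (P i)) : ℚ) : ℝ) ≤ A L := by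
      have e1 : ∑ i, nrm (zq (P i)) ≤ ∑ i, nrm (C (uq i0) * zq (P i)) :=
        Finset.sum_le_sum (fun i _ => nrm_C_mul _ _ hu1)
      have e2 : ∑ j, nrm (C (uq i0) * zq (P j)) ≤ ∑ i, ∑ j, nrm (C (uq i) * zq (P j)) :=
        Finset.single_le_sum (f := fun i => ∑ j, nrm (C (uq i) * zq (P j)))
          (fun _ _ => Finset.sum_nonneg (fun _ _ => nrm_nonneg _)) (Finset.mem_univ i0)
      have e3 : ∑ i, ∑ j, nrm (C (uq i) * zq (P j)) = ∑ i, ∑ j, nrm (zq (Pm i j)) := by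
        refine Finset.sum_congr rfl (fun i _ => Finset.sum_congr rfl (fun j _ => ?_))
        have := congrFun (congrFun hPmq i) j
        rw [Matrix.map_apply, otr_apply] at this
        rw [this]
      have e4 : ((∑ i, nrm (zq (P i)) : ℚ) : ℝ) ≤ _ :=
        Rat.cast_le.2 ((e1.trans (e2.trans e3.le)).trans hPn)
      refine e4.trans (le_of_eq ?_)
      simp only [A]
      push_cast
      ring
    have hNm := Nm_form (fun j => zq (P j)) h (2 * ρ) (A L) h0 (by rw [h2ρ]; exact hρ1) hρh hA'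
      hhn hh0
    have hsv := small_valueC (zq q) ((m * M - 1) * L) k (TT L) ρ Q (A L * h0) (σ w)⁻¹ hρ hρ1
      hxρ hcoef (Sm_form _ _ _ hρh) hNm hQ1 hQ (le_of_lt k.2)
    rw [norm_inv] at hsv
    calc ‖σ ((a0 : F) ^ E * w ^ E * (algebraMap ℚ F (Dg * uq i0)))‖ *
          ‖evC (((X * zq q : ℚ[X]) : PowerSeries ℚ) ^ (k : ℕ) *
          hs k (∑ i, ((zq (P i) : ℚ[X]) : PowerSeries ℚ) * h i)) (σ w)⁻¹‖
        ≤ T ^ (2 * E) * ((Cg : ℝ) ^ (TT L + 1) * (U : ℝ)) *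
          ((‖σ w‖⁻¹ / ρ) ^ ((m * M - 1) * L) * (Q ^ TT L * (A L * h0))) :=
          mul_le_mul h3 hsv (norm_nonneg _) (by positivity)
      _ = T ^ (2 * E) * ((U : ℝ) * W L) * (‖σ w‖⁻¹) ^ ((m * M - 1) * L) := by
          simp only [W]
          rw [div_eq_mul_inv, mul_pow]
          ring
      _ ≤ T ^ (2 * E) * (1 + (V L + (U : ℝ) * W L)) * (‖σ w‖⁻¹) ^ ((m * M - 1) * L) := by
          refine mul_le_mul_of_nonneg_right ?_ (by positivity)
          refine mul_le_mul_of_nonneg_left ?_ (by positivity)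
          linarith [hV0 L]

end Pool.Agent.MTN.H21
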