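import Pool.Agent.Helper78_MTD.D

/-!
# The second zero estimate at algebraic points
-/

set_option autoImplicit false
set_option linter.unusedSectionVars false

namespace Pool.Agent.MTN.H21

open Matrix Polynomial Pool.Agent.MT100 Pool.Agent.MT100G Pool.Agent.MT100G.H58
open Pool.Agent.Helper58_MT Pool.Agent.MT100D Pool.Agent.MT100D.H78

variable {d : Type} [Fintype d] [DecidableEq d]

/-- lowering the order at an algebraic point `ξ`, a simple root of `π` -/
theorem lowerA (q : ℚ[X]) (B : Matrix d d ℚ[X]) (P : d → ℚ[X]) {e : ℕ} (R : Fin e → d → ℚ[X])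
    (F : ℚ[X]) (hF : ∀ j, F • nb q B 0 (R j) ∈ Submodule.span ℚ[X] (Set.range R))
    {L : Type*} [Field L] [Algebra ℚ L] (ξ : L) (π : ℚ[X]) (hπ0 : aeval ξ π = 0)
    (hπ1 : aeval ξ (derivative π) ≠ 0) (hξ : ξ ≠ 0) (hq : aeval ξ q ≠ 0) (hFξ : aeval ξ F ≠ 0)
    (a : ℕ) :
    ∀ (m : ℕ) (g : ℚ[X]), aeval ξ g ≠ 0 →
    (∀ E : d → ℚ[X], (π ^ a * g) • E ∈ SS q B P R m) →
    ∃ g' : ℚ[X], aeval ξ g' ≠ 0 ∧ ∀ E : d → ℚ[X], g' • E ∈ SS q B P R (m + a) := by
  induction a with
  | zero => intro m g hg h; exact ⟨g, hg, by simpa using h⟩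
  | succ a ih =>
      intro m g hg h
      have h1 : ∀ E : d → ℚ[X],
          (F * (X * q * derivative (π ^ (a + 1) * g))) • E ∈ SS q B P R (m + 1) := by
        intro E
        have h2 := nb_SS q B P R F hF m _ (h E)
        rw [nb_smul, smul_add] at h2
        have h3 := SS_mono q B P R (Nat.le_succ m) (h (nb q B 0 E))
        have h4 := Submodule.smul_mem _ F h3
        have h5 := Submodule.sub_mem _ h2 h4
        rwa [add_sub_cancel_left, smul_smul] at h5
      have e : F * (X * q * derivative (π ^ (a + 1) * g))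
          = π ^ a * (F * (X * q * (((a : ℚ[X]) + 1) * derivative π * g + π * derivative g))) := by
        rw [derivative_mul, derivative_pow, Nat.add_sub_cancel]
        simp only [map_add, map_natCast, map_one, Nat.cast_add, Nat.cast_one]
        ring
      simp only [e] at h1
      have hCZ : CharZero L := charZero_of_injective_algebraMap (algebraMap ℚ L).injective
      obtain ⟨g', hg', h'⟩ := ih (m + 1) _ (by
        simp only [map_mul, map_add, aeval_X, map_natCast, map_one, hπ0, zero_mul, add_zero]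
        refine mul_ne_zero hFξ (mul_ne_zero (mul_ne_zero hξ hq) (mul_ne_zero (mul_ne_zero ?_ hπ1) hg))
        exact Nat.cast_add_one_ne_zero a) h1
      refine ⟨g', hg', fun E => ?_⟩
      have := h' E
      rwa [show m + 1 + a = m + (a + 1) by ring] at this

/-- the second zero estimate at algebraic points -/
theorem zsbA (q' : ℚ[X]) (hq0 : q' ≠ 0) (B' : Matrix d d ℚ[X]) (A : Matrix d d ℚ)
    (H : Matrix d d (PowerSeries ℚ))
    (hone : ∀ i j, PowerSeries.constantCoeff (H i j) = if i = j then 1 else 0)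
    (hode : co (X * q') • H.map (PowerSeries.derivative ℚ) = B'.map co * H - co q' • (H * pc A))
    (u : d → ℚ) (hu : A *ᵥ u = 0) (m' e : ℕ) (ε : d ≃ Fin m' ⊕ Fin e) (R : Fin e → d → ℚ[X])
    (hR : RelB (hv H u) R) :
    ∃ (c2 : ℕ) (G : ℚ[X]), G ≠ 0 ∧ ∀ (M T τ : ℕ) (P : d → ℚ[X]), (∀ i, (P i).natDegree ≤ M) →
      (∀ i < T, PowerSeries.coeff i (∑ i, ((P i : ℚ[X]) : PowerSeries ℚ) * hv H u i) = 0) →
      Dt q' B' P ε R ≠ 0 → m' * M + c2 ≤ T + τ →
      ∀ (L : Type) [Field L] [Algebra ℚ L] (ξ : L), IsIntegral ℚ ξ → ξ ≠ 0 → aeval ξ G ≠ 0 →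
      LinearIndependent L (fun l i => aeval ξ (R l i)) ∧
      ∀ y : d → L, (∀ k < m' + τ, ∑ i, aeval ξ (Pv q' B' P k i) * y i = 0) →
        (∀ l, ∑ i, aeval ξ (R l i) * y i = 0) → y = 0 := by
  classical
  obtain ⟨c, hc, hB⟩ : ∃ c : ℕ, (X * q').natDegree ≤ c ∧ ∀ i j, (B' i j).natDegree ≤ c := by
    refine ⟨(X * q').natDegree + ∑ i, ∑ j, (B' i j).natDegree, by omega, ?_⟩
    intro i j
    have h1 : (B' i j).natDegree ≤ ∑ j, (B' i j).natDegree :=
      Finset.single_le_sum (f := fun j => (B' i j).natDegree) (fun _ _ => Nat.zero_le _)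
        (Finset.mem_univ j)
    have h2 : ∑ j, (B' i j).natDegree ≤ ∑ i, ∑ j, (B' i j).natDegree :=
      Finset.single_le_sum (f := fun i => ∑ j, (B' i j).natDegree)
        (fun _ _ => Nat.zero_le _) (Finset.mem_univ i)
    omega
  obtain ⟨c3, hc3⟩ := degR R
  have hcard : Fintype.card d = m' + e := by
    rw [Fintype.card_congr ε, Fintype.card_sum, Fintype.card_fin, Fintype.card_fin]
  -- the factor `F`
  obtain ⟨F, hF0, hF⟩ : ∃ F : ℚ[X], F ≠ 0 ∧
      ∀ j, F • nb q' B' 0 (R j) ∈ Submodule.span ℚ[X] (Set.range R) := by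
    have h1 := fun j => nb_R q' B' _ H hode u hu R hR j
    choose f hf0 hf using h1
    refine ⟨∏ j, f j, Finset.prod_ne_zero_iff.2 fun j _ => hf0 j, fun j => ?_⟩
    rw [← Finset.mul_prod_erase _ _ (Finset.mem_univ j), mul_comm, mul_smul]
    exact Submodule.smul_mem _ _ (hf j)
  -- completion of `R`
  obtain ⟨κ, hκ, e1, jj, hdetR⟩ := completion (Fintype.card d - e) (Fin e) R
    (by rw [Fintype.card_fin]; omega) hR.indep
  set AR : Matrix d d ℚ[X] :=
    Matrix.of fun i => Sum.elim R (fun k => Pi.single (jj k) (1 : ℚ[X])) (e1 i) with hAR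
  refine ⟨m' * (c * m') + e * c3, q' * (F * AR.det), mul_ne_zero hq0 (mul_ne_zero hF0 hdetR), ?_⟩
  intro M T τ P hM hT hDt hbig L _ _ ξ hint hξ hev
  rw [map_mul, map_mul] at hev
  have hqξ : aeval ξ q' ≠ 0 := left_ne_zero_of_mul hev
  have hFξ : aeval ξ F ≠ 0 := left_ne_zero_of_mul (right_ne_zero_of_mul hev)
  have hRξ : aeval ξ AR.det ≠ 0 := right_ne_zero_of_mul (right_ne_zero_of_mul hev)
  -- independence of the relations at `ξ`
  have hdetξ : (AR.map (aeval ξ)).det ≠ 0 := by
    have h1 := RingHom.map_det (aeval ξ : ℚ[X] →ₐ[ℚ] L).toRingHom AR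
    intro h0
    apply hRξ
    refine Eq.trans ?_ h0
    exact h1
  have hliR : LinearIndependent L (fun l i => aeval ξ (R l i)) := by
    have h1 := Matrix.linearIndependent_rows_of_det_ne_zero hdetξ
    have h2 := h1.comp (fun l : Fin e => e1.symm (Sum.inl l)) (by
      intro a b h
      simpa using h)
    have h3 : ((fun i => (AR.map (aeval ξ)).row i) ∘ fun l : Fin e => e1.symm (Sum.inl l))
        = fun l i => aeval ξ (R l i) := by
      funext l i
      simp only [Function.comp_apply, Matrix.row_apply, Matrix.map_apply, hAR, Matrix.of_apply,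
        Equiv.apply_symm_apply, Sum.elim_inl]
    rw [← h3]
    exact h2
  refine ⟨hliR, ?_⟩
  intro y hy hyR
  -- rows of full rank
  have hfin : ∀ (g : ℚ[X]) (m : ℕ), aeval ξ g ≠ 0 → m ≤ m' + τ →
      (∀ E : d → ℚ[X], g • E ∈ SS q' B' P R m) → y = 0 := by
    intro g m hg hm hE
    have hzero : ∀ p ∈ SS q' B' P R m, ∑ i, aeval ξ (p i) * y i = 0 := by
      intro p hp
      unfold SS at hp
      induction hp using Submodule.span_induction with
      | mem p hp =>
          rcases hp with ⟨j, rfl⟩ | ⟨k, hk, rfl⟩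
          · exact hyR j
          · have hk' : k < m := hk
            exact hy k (by omega)
      | zero => simp
      | add a b _ _ ha hb =>
          simp only [Pi.add_apply, map_add, add_mul, Finset.sum_add_distrib, ha, hb, add_zero]
      | smul c a _ ha =>
          simp only [Pi.smul_apply, smul_eq_mul, map_mul, mul_assoc, ← Finset.mul_sum, ha,
            mul_zero]
    funext i
    have h1 := hzero _ (hE (Pi.single i 1))
    rw [Finset.sum_eq_single i] at h1
    · simp only [Pi.smul_apply, Pi.single_eq_same, smul_eq_mul, mul_one] at h1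
      exact (mul_eq_zero.1 h1).resolve_left hg
    · intro b _ hb
      simp [hb]
    · intro h; exact absurd (Finset.mem_univ _) h
  by_cases hu0 : u = 0
  · -- everything is a relation
    have hm0 : m' = 0 := by
      have h1 := card_le_of_sat (d := d) R (by
        intro j
        refine hR.max _ ?_
        have : ∀ i, hv H u i = 0 := by
          intro i
          unfold hv
          refine Finset.sum_eq_zero fun x _ => ?_
          rw [hu0]
          simp
        simp [this])
      rw [Fintype.card_fin] at h1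
      omega
    have hfull : ∀ E : d → ℚ[X], AR.det • E ∈ SS q' B' P R 0 := by
      intro E
      obtain ⟨z, hz⟩ : ∃ z : d → ℚ[X], AR.det • E = z ᵥ* AR := by
        refine ⟨E ᵥ* AR.adjugate, ?_⟩
        rw [Matrix.vecMul_vecMul, Matrix.adjugate_mul, Matrix.vecMul_smul, Matrix.vecMul_one]
      have h2 : AR.det • E
          = ∑ i, z i • (Sum.elim R (fun k => Pi.single (jj k) (1 : ℚ[X])) (e1 i)) := by
        rw [hz]
        funext j
        simp only [Matrix.vecMul, dotProduct, hAR, Matrix.of_apply, Finset.sum_apply,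
          Pi.smul_apply, smul_eq_mul]
      rw [h2]
      refine Submodule.sum_mem _ fun i _ => Submodule.smul_mem _ _ ?_
      rcases hi : e1 i with l | k
      · exact R_mem_SS q' B' P R 0 l
      · exfalso
        have h3 : Fintype.card d = e + Fintype.card κ := by
          rw [Fintype.card_congr e1, Fintype.card_sum, Fintype.card_fin]
        have h4 : 0 < Fintype.card κ := Fintype.card_pos_iff.2 ⟨k⟩
        omega
    exact hfin _ 0 hRξ (by omega) hfull
  · obtain ⟨i0, hi0⟩ : ∃ i, u i ≠ 0 := by
      by_contra hcon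
      push Not at hcon
      exact hu0 (funext hcon)
    -- the order of `Dt` at `0`
    have hXT : (PowerSeries.X : PowerSeries ℚ) ^ T ∣ pr H u P := by
      rw [PowerSeries.X_pow_dvd_iff]
      exact hT
    have hunit : IsUnit (hv H u i0) := by
      rw [PowerSeries.isUnit_iff_constantCoeff]
      have h1 : PowerSeries.constantCoeff (hv H u i0) = u i0 := by
        unfold hv
        rw [map_sum, Finset.sum_eq_single i0]
        · rw [map_mul, hone, if_pos rfl, one_mul, PowerSeries.constantCoeff_C]
        · intro x _ hx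
          rw [map_mul, hone, if_neg (Ne.symm hx), zero_mul]
        · intro h; exact absurd (Finset.mem_univ _) h
      rw [h1]
      exact IsUnit.mk0 _ hi0
    have hXD : X ^ T ∣ Dt q' B' P ε R := by
      rw [Dt_eq]
      set A : Matrix d d ℚ[X] :=
        Matrix.of fun i => Sum.elim (fun k : Fin m' => Pv q' B' P k) R (ε i) with hA
      have h1 : ∀ i, (PowerSeries.X : PowerSeries ℚ) ^ T ∣ ((A.map co) *ᵥ hv H u) i := by
        intro i
        have h2 : ((A.map co) *ᵥ hv H u) i
            = pr H u (Sum.elim (fun k : Fin m' => Pv q' B' P k) R (ε i)) := by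
          simp only [Matrix.mulVec, dotProduct, Matrix.map_apply, hA, Matrix.of_apply, pr]
        rw [h2]
        rcases ε i with k | l
        · exact pr_Pv q' B' _ H hode u hu P T hXT k
        · have : pr H u (R l) = 0 := hR.rel l
          simp only [Sum.elim_inr, this]
          exact dvd_zero _
      have h2 : (A.map co).det • hv H u
          = (A.map co).adjugate *ᵥ ((A.map co) *ᵥ hv H u) := by
        rw [Matrix.mulVec_mulVec, Matrix.adjugate_mul, Matrix.smul_mulVec, Matrix.one_mulVec]
      have h3 := congrFun h2 i0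
      rw [Pi.smul_apply, smul_eq_mul] at h3
      have h4 : (PowerSeries.X : PowerSeries ℚ) ^ T ∣ (A.map co).det * hv H u i0 := by
        rw [h3]
        simp only [Matrix.mulVec, dotProduct] at h1 ⊢
        exact Finset.dvd_sum fun k _ => Dvd.dvd.mul_left (h1 k) _
      have h5 := hunit.dvd_mul_right.1 h4
      have h6 : (A.map co).det = co A.det := by
        have := RingHom.map_det (co : ℚ[X] →+* PowerSeries ℚ) A
        exact this.symm
      rw [h6, co_apply, PowerSeries.X_pow_dvd_iff] at h5
      rw [Polynomial.X_pow_dvd_iff]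
      intro m hm
      have := h5 m hm
      rwa [Polynomial.coeff_coe] at this
    -- the degree of `Dt`
    have hdeg : (Dt q' B' P ε R).natDegree ≤ m' * M + (m' * (c * m') + e * c3) := by
      rw [Dt_eq]
      refine (det_natDegree_le _ (fun i => Sum.elim (fun k : Fin m' => M + c * (k : ℕ))
        (fun _ => c3) (ε i)) ?_).trans ?_
      · intro i j
        rw [Matrix.of_apply]
        rcases ε i with k | l
        · exact Pv_natDegree q' B' P c M hc hB hM k j
        · exact hc3 l j
      · rw [Equiv.sum_comp ε (Sum.elim (fun k : Fin m' => M + c * (k : ℕ)) (fun _ => c3)),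
          Fintype.sum_sum_type]
        simp only [Sum.elim_inl, Sum.elim_inr, Finset.sum_const, Finset.card_univ,
          Fintype.card_fin, smul_eq_mul]
        have h1 : ∑ k : Fin m', (M + c * (k : ℕ)) ≤ m' * (M + c * m') := by
          refine (Finset.sum_le_card_nsmul _ _ (M + c * m') fun k _ => ?_).trans (by
            rw [Finset.card_univ, Fintype.card_fin, smul_eq_mul])
          have := Nat.mul_le_mul_left c k.2.le
          omega
        rw [Nat.mul_add] at h1
        omega
    -- the multiplicity at `ξ`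
    set π : ℚ[X] := minpoly ℚ ξ with hπ
    have hπirr : Irreducible π := minpoly.irreducible hint
    have hπ0 : aeval ξ π = 0 := minpoly.aeval ℚ ξ
    have hπmon : π.Monic := minpoly.monic hint
    have hπ1 : aeval ξ (derivative π) ≠ 0 := hπirr.separable.aeval_derivative_ne_zero hπ0
    have hπdeg : 1 ≤ π.natDegree := hπirr.natDegree_pos
    obtain ⟨a, g, hg, hgd⟩ : ∃ (a : ℕ) (g : ℚ[X]), Dt q' B' P ε R = π ^ a * g ∧ ¬ π ∣ g := by
      obtain ⟨a, g, hgd, hg⟩ := WfDvdMonoid.max_power_factor hDt hπirr
      exact ⟨a, g, hg, hgd⟩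
    have hg0 : aeval ξ g ≠ 0 := fun h => hgd (minpoly.dvd ℚ ξ h)
    have haτ : a ≤ τ := by
      have hco : IsCoprime (X ^ T : ℚ[X]) (π ^ a) := by
        refine IsCoprime.pow ?_
        refine (hπirr.coprime_iff_not_dvd.2 fun h => ?_).symm
        obtain ⟨r, hr⟩ := h
        apply hξ
        have := congrArg (aeval ξ) hr
        rw [map_mul, hπ0, zero_mul, aeval_X] at this
        exact this
      have h1 : X ^ T * π ^ a ∣ Dt q' B' P ε R :=
        hco.mul_dvd hXD (by rw [hg]; exact dvd_mul_right _ _)
      have h2 := (natDegree_le_of_dvd h1 hDt).trans hdeg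
      rw [Monic.natDegree_mul (monic_X_pow _) (hπmon.pow _), natDegree_X_pow,
        hπmon.natDegree_pow] at h2
      have h3 : a * 1 ≤ a * π.natDegree := Nat.mul_le_mul_left a hπdeg
      omega
    obtain ⟨g', hg', hfull⟩ := lowerA q' B' P R F hF ξ π hπ0 hπ1 hξ hqξ hFξ a m' g hg0 (fun E => by
      rw [← hg]; exact det_fullS q' B' P ε R E)
    exact hfin g' (m' + a) hg' (by omega) hfull

end Pool.Agent.MTN.H21
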